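import Pool.Agent.Lib.MP_524519_ag.DU5.PC.Iface

/-! DU5, chapter PC, module NP: the tame Newton-Puiseux theorem. -/

set_option autoImplicit false

namespace Pool.Agent.DU5.PC

open Polynomial

namespace NP

theorem good_mono {K : Type} [Field K] {d d' : ℕ} (h : Good K d) (hd : d' ≤ d) : Good K d' := by
  refine ⟨fun h0 => h.fac ?_, fun q hq hn => h.splits q hq (hn.trans hd)⟩
  obtain ⟨c, hc⟩ := Nat.factorial_dvd_factorial hd
  rw [hc, Nat.cast_mul, h0, zero_mul]

theorem rootExp_succ (d : ℕ) : rootExp (d + 1) = rootExp d * (d + 1).factorial :=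
  Finset.prod_range_succ _ _

theorem rootExp_dvd {a b : ℕ} (h : a ≤ b) : rootExp a ∣ rootExp b :=
  Finset.prod_dvd_prod_of_subset _ _ _ (Finset.range_mono h)

/-- The scaling step. -/
theorem scale {K : Type} [Field K] (P : (PowerSeries K)[X]) (d : ℕ)
    (hP : P.Monic) (hdeg : P.natDegree = d) (hX : P ≠ X ^ d) (hc : P.coeff (d - 1) = 0) :
    ∃ (μ : ℕ) (P' : (PowerSeries K)[X]), P'.Monic ∧ P'.natDegree = d ∧
      P.map (ex K d.factorial (Nat.factorial_ne_zero d)) = P'.scaleRoots (PowerSeries.X ^ μ) ∧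
      P'.coeff (d - 1) = 0 ∧ ∃ i < d, PowerSeries.constantCoeff (P'.coeff i) ≠ 0 := by
  classical
  have he0 : d.factorial ≠ 0 := Nat.factorial_ne_zero d
  let e := d.factorial
  let φ := ex K d.factorial (Nat.factorial_ne_zero d)
  let S := (Finset.range d).filter (fun j => P.coeff j ≠ 0)
  have hS : S.Nonempty := by
    by_contra hne
    rw [Finset.not_nonempty_iff_eq_empty] at hne
    apply hX
    ext1 j
    rw [coeff_X_pow]
    rcases lt_trichotomy j d with hj | hj | hj
    · have : j ∉ S := by rw [hne]; exact Finset.notMem_empty _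
      have h2 : P.coeff j = 0 := by
        by_contra h3
        exact this (Finset.mem_filter.mpr ⟨Finset.mem_range.mpr hj, h3⟩)
      rw [h2, if_neg hj.ne]
    · rw [if_pos hj, hj, ← hdeg]; exact hP
    · rw [if_neg hj.ne', coeff_eq_zero_of_natDegree_lt (by omega)]
  let w : ℕ → ℕ := fun j => e / (d - j) * (P.coeff j).order.toNat
  obtain ⟨j0, hj0, hmin⟩ := Finset.exists_min_image S w hS
  have hS1 : ∀ j ∈ S, j < d ∧ P.coeff j ≠ 0 := fun j hj => by
    have := Finset.mem_filter.mp hj
    exact ⟨Finset.mem_range.mp this.1, this.2⟩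
  have hord : ∀ j ∈ S, (φ (P.coeff j)).order.toNat = (d - j) * w j := by
    intro j hj
    obtain ⟨h1, h2⟩ := hS1 j hj
    have h3 : (φ (P.coeff j)).order = e • (P.coeff j).order := PowerSeries.order_expand _ _ _
    have h4 : ((P.coeff j).order.toNat : ℕ∞) = (P.coeff j).order := PowerSeries.coe_toNat_order h2
    have h5 : (φ (P.coeff j)).order = ((e * (P.coeff j).order.toNat : ℕ) : ℕ∞) := by
      rw [h3, ← h4]; simp
    rw [h5, ENat.toNat_coe]
    have h6 : (d - j) * (e / (d - j)) = e :=
      Nat.mul_div_cancel' (Nat.dvd_factorial (by omega) (Nat.sub_le _ _))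
    show e * _ = (d - j) * (e / (d - j) * _)
    rw [← mul_assoc, h6]
  let Q : ℕ → PowerSeries K := fun j => if P.coeff j = 0 then 0 else
    PowerSeries.X ^ ((d - j) * w j - (d - j) * w j0) * (φ (P.coeff j)).divXPowOrder
  have hQ : ∀ j < d, φ (P.coeff j) = Q j * (PowerSeries.X ^ w j0) ^ (d - j) := by
    intro j hj
    by_cases h0 : P.coeff j = 0
    · simp [Q, h0]
    · have hjS : j ∈ S := Finset.mem_filter.mpr ⟨Finset.mem_range.mpr hj, h0⟩
      have h1 := PowerSeries.X_pow_order_mul_divXPowOrder (f := φ (P.coeff j))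
      rw [hord j hjS] at h1
      have h2 : (d - j) * w j0 ≤ (d - j) * w j := Nat.mul_le_mul_left _ (hmin j hjS)
      simp only [Q, if_neg h0]
      conv_lhs => rw [← h1]
      rw [← pow_mul, mul_comm (w j0) (d - j), mul_right_comm, ← pow_add, Nat.sub_add_cancel h2]
  have hφ0 : ∀ a : PowerSeries K, a ≠ 0 → φ a ≠ 0 := by
    intro a ha h
    have h3 : (φ a).order = e • a.order := PowerSeries.order_expand _ _ _
    rw [h, PowerSeries.order_zero, ← PowerSeries.coe_toNat_order ha] at h3
    have h4 : ((⊤ : ℕ∞)) = ((e * a.order.toNat : ℕ) : ℕ∞) := by rw [h3]; simp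
    exact ENat.coe_ne_top _ h4.symm
  let r : (PowerSeries K)[X] := ∑ j ∈ Finset.range d, C (Q j) * X ^ j
  have hrdeg : r.degree < (d : WithBot ℕ) := by
    refine lt_of_le_of_lt (degree_sum_le _ _) ?_
    refine (Finset.sup_lt_iff (WithBot.bot_lt_coe d)).mpr ?_
    intro j hj
    exact lt_of_le_of_lt (degree_C_mul_X_pow_le _ _)
      (Nat.cast_lt.mpr (Finset.mem_range.mp hj))
  have hrc : ∀ j < d, r.coeff j = Q j := by
    intro j hj
    simp only [r, finset_sum_coeff, coeff_C_mul, coeff_X_pow, mul_ite, mul_one, mul_zero]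
    rw [Finset.sum_ite_eq, if_pos (Finset.mem_range.mpr hj)]
  refine ⟨w j0, X ^ d + r, monic_X_pow_add hrdeg, ?_, ?_, ?_, j0, (hS1 j0 hj0).1, ?_⟩
  · rw [natDegree_add_eq_left_of_degree_lt, natDegree_X_pow]
    rw [degree_X_pow]; exact hrdeg
  · have hnd : (X ^ d + r).natDegree = d := by
      rw [natDegree_add_eq_left_of_degree_lt, natDegree_X_pow]
      rw [degree_X_pow]; exact hrdeg
    ext1 j
    rw [coeff_scaleRoots, coeff_map, hnd]
    rcases lt_trichotomy j d with hj | hj | hj
    · rw [coeff_add, coeff_X_pow, if_neg hj.ne, zero_add, hrc j hj]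
      exact hQ j hj
    · subst hj
      rw [Nat.sub_self, pow_zero, mul_one]
      have h1 : (X ^ j + r).coeff j = 1 := by
        have := (monic_X_pow_add hrdeg).coeff_natDegree
        rwa [hnd] at this
      rw [h1]
      have h2 : P.coeff j = 1 := by rw [← hdeg]; exact hP
      rw [h2, map_one]
    · rw [coeff_eq_zero_of_natDegree_lt (by omega), map_zero,
        coeff_eq_zero_of_natDegree_lt (by rw [hnd]; exact hj), zero_mul]
  · have hd : 0 < d := lt_of_le_of_lt (Nat.zero_le _) (hS1 j0 hj0).1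
    rw [coeff_add, coeff_X_pow, if_neg (by omega), zero_add, hrc _ (by omega)]
    simp only [Q, if_pos hc]
  · have h1 := hS1 j0 hj0
    rw [coeff_add, coeff_X_pow, if_neg h1.1.ne, zero_add, hrc _ h1.1]
    simp only [Q, if_neg h1.2, Nat.sub_self, pow_zero, one_mul]
    intro h2
    rw [PowerSeries.constantCoeff_divXPowOrder_eq_zero_iff] at h2
    exact hφ0 _ h1.2 h2

/-- Substitutions compose. -/
theorem ex_mul {K : Type} [Field K] (a b : ℕ) (ha : a ≠ 0) (hb : b ≠ 0) (h : a * b ≠ 0) :
    ex K (a * b) h = (ex K a ha).comp (ex K b hb) := by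
  ext1 f
  exact PowerSeries.expand_mul a ha b hb f

theorem splits_main (hW : WfcStatement) {K : Type} [Field K] (d : ℕ) : Good K d →
    ∀ P : (PowerSeries K)[X], P.Monic → P.natDegree = d →
    ∀ (n : ℕ) (hn : n ≠ 0), rootExp d ∣ n → (P.map (ex K n hn)).Splits := by
  induction d using Nat.strong_induction_on with
  | _ d ih =>
  intro hg P hP hdeg n hn hdvd
  rcases Nat.lt_or_ge d 2 with hd | hd
  · exact Splits.map (Splits.of_natDegree_le_one_of_monic (by omega) hP) _
  have hdfac : (d : K) ≠ 0 := by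
    intro h0
    apply hg.fac
    rw [← Nat.mul_factorial_pred (by omega : d ≠ 0), Nat.cast_mul, h0, zero_mul]
  -- shift
  let c : PowerSeries K := - (PowerSeries.C (R := K) (d : K)⁻¹ * P.coeff (d - 1))
  have hc : (taylor c P).coeff (d - 1) = 0 := by
    have hn1 : (hasseDeriv (d - 1) P).natDegree < 2 := by
      have := natDegree_hasseDeriv_le P (d - 1)
      omega
    have hd1 : 1 + (d - 1) = d := by omega
    rw [taylor_coeff, eval_eq_sum_range' hn1, Finset.sum_range_succ, Finset.sum_range_one,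
      hasseDeriv_coeff, hasseDeriv_coeff, zero_add, hd1, Nat.choose_self,
      Nat.choose_symm_of_eq_add (show d = (d - 1) + 1 by omega), Nat.choose_one_right]
    have h1 : P.coeff d = 1 := by rw [← hdeg]; exact hP
    have h2 : ((d : ℕ) : PowerSeries K) = PowerSeries.C (R := K) (d : K) := by simp
    rw [h1, h2]
    simp only [c, Nat.cast_one, one_mul, pow_zero, mul_one, pow_one]
    rw [mul_neg, ← mul_assoc, ← map_mul, mul_inv_cancel₀ hdfac, map_one, one_mul, add_neg_cancel]
  have hPc : P.map (ex K n hn) = taylor (ex K n hn (-c)) ((taylor c P).map (ex K n hn)) := by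
    rw [← map_taylor, taylor_taylor]
    simp
  rw [hPc]
  refine Splits.taylor ?_ _
  have hTm : (taylor c P).Monic := by
    rw [Monic, leadingCoeff_taylor]; exact hP
  have hTd : (taylor c P).natDegree = d := by rw [natDegree_taylor]; exact hdeg
  by_cases hX : taylor c P = X ^ d
  · rw [hX, Polynomial.map_pow, map_X]
    exact Splits.X_pow d
  obtain ⟨μ, P', hm', hd', hsc, hc', i, hi, hi'⟩ := scale (taylor c P) d hTm hTd hX hc
  -- exponents
  obtain ⟨n', hn'⟩ : ∃ n', n = n' * d.factorial ∧ rootExp (d - 1) ∣ n' := by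
    obtain ⟨k, hk⟩ := hdvd
    have : d = (d - 1) + 1 := by omega
    rw [this, rootExp_succ, ← this] at hk
    exact ⟨rootExp (d - 1) * k, by rw [hk]; ring, dvd_mul_right _ _⟩
  obtain ⟨hn', hdvd'⟩ := hn'
  have hn'0 : n' ≠ 0 := by rintro rfl; exact hn (by rw [hn', zero_mul])
  subst hn'
  rw [ex_mul n' d.factorial hn'0 (Nat.factorial_ne_zero d), ← Polynomial.map_map, hsc,
    map_scaleRoots _ _ _ (by rw [hm'.leadingCoeff, map_one]; exact one_ne_zero)]
  refine Splits.scaleRoots ?_ _
  -- the reduction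
  let q : K[X] := P'.map (PowerSeries.constantCoeff (R := K))
  have hqm : q.Monic := hm'.map _
  have hqd : q.natDegree = d := by rw [← hd']; exact hm'.natDegree_map _
  have hqs : q.Splits := hg.splits q hqm hqd.le
  obtain ⟨a, ha⟩ := hqs.exists_eval_eq_zero (by
    rw [degree_eq_natDegree hqm.ne_zero, hqd]; exact_mod_cast (by omega : d ≠ 0))
  have hq0 : q ≠ 0 := hqm.ne_zero
  obtain ⟨h, hh1, hh2⟩ := exists_eq_pow_rootMultiplicity_mul_and_not_dvd q hq0 a
  set m := rootMultiplicity a q with hmdef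
  have hm1 : 0 < m := (rootMultiplicity_pos hq0).mpr ha
  have hmd : m < d := by
    classical
    by_contra hcon
    have hcard : q.roots.card = d := by rw [← hqs.natDegree_eq_card_roots, hqd]
    have hcount : q.roots.count a = q.roots.card := by
      refine le_antisymm (Multiset.count_le_card _ _) ?_
      rw [count_roots, hcard]
      exact not_lt.mp hcon
    have hrep : q.roots = Multiset.replicate d a :=
      Multiset.eq_replicate.mpr ⟨hcard, fun b hb => (Multiset.count_eq_card.mp hcount b hb).symm⟩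
    have h1 := hqs.nextCoeff_eq_neg_sum_roots_of_monic hqm
    rw [nextCoeff_of_natDegree_pos (by omega), hqd, coeff_map, hc', map_zero, hrep,
      Multiset.sum_replicate, nsmul_eq_mul] at h1
    have h2 : a = 0 := by
      rcases mul_eq_zero.mp (neg_eq_zero.mp h1.symm) with h3 | h3
      · exact absurd h3 hdfac
      · exact h3
    have h3 := hqs.eq_prod_roots_of_monic hqm
    rw [hrep, h2, Multiset.map_replicate, Multiset.prod_replicate, C_0, sub_zero] at h3
    apply hi'
    have h4 : q.coeff i = 0 := by rw [h3, coeff_X_pow, if_neg hi.ne]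
    rwa [coeff_map] at h4
  have hh3 : h.eval a ≠ 0 := by
    intro h0; exact hh2 (dvd_iff_isRoot.mpr h0)
  have hred : (taylor (PowerSeries.C (R := K) a) P').map (PowerSeries.constantCoeff (R := K)) =
      X ^ m * taylor a h := by
    rw [map_taylor]
    show taylor (PowerSeries.constantCoeff (PowerSeries.C (R := K) a)) q = _
    rw [PowerSeries.constantCoeff_C, hh1, taylor_mul, taylor_pow]
    simp
  obtain ⟨W, Q, hWQ, hWm, hQm, hWd⟩ := hW K (taylor (PowerSeries.C (R := K) a) P') m (taylor a h)
    (by rw [Monic, leadingCoeff_taylor]; exact hm') hred (by rw [taylor_eval, zero_add]; exact hh3)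
  have hQd : Q.natDegree = d - m := by
    have h1 : (taylor (PowerSeries.C (R := K) a) P').natDegree = d := by
      rw [natDegree_taylor]; exact hd'
    rw [hWQ, hWm.natDegree_mul hQm, hWd] at h1
    omega
  have hsW := ih m hmd (good_mono hg hmd.le) W hWm hWd n' hn'0
    ((rootExp_dvd (by omega)).trans hdvd')
  have hsQ := ih (d - m) (by omega) (good_mono hg (by omega)) Q hQm hQd n' hn'0
    ((rootExp_dvd (by omega)).trans hdvd')
  have hfin : P' = taylor (-(PowerSeries.C (R := K) a)) (W * Q) := by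
    rw [← hWQ, taylor_taylor]; simp
  rw [hfin, map_taylor, Polynomial.map_mul]
  exact Splits.taylor (hsW.mul hsQ) _

end NP

/-- NP: tame Newton-Puiseux. -/
theorem np (hW : WfcStatement) : NpStatement := by
  intro K _ d hg P hP hdeg n hn hdvd
  have hs := NP.splits_main hW d hg P hP hdeg n hn hdvd
  have hm : (P.map (ex K n hn)).Monic := hP.map _
  have h1 := hs.eq_prod_roots_of_monic hm
  have h2 := hs.natDegree_eq_card_roots
  rw [hP.natDegree_map, hdeg] at h2
  obtain ⟨l, hl, hll⟩ : ∃ l : List (PowerSeries K), l.length = d ∧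
      P.map (ex K n hn) = (l.map (fun a => X - C a)).prod := by
    refine ⟨(P.map (ex K n hn)).roots.toList, by rw [Multiset.length_toList, ← h2], ?_⟩
    conv_lhs => rw [h1]
    rw [← Multiset.prod_coe, ← Multiset.map_coe, Multiset.coe_toList]
  subst hl
  refine ⟨fun i => l[i], ?_⟩
  rw [hll]
  exact (Fin.prod_univ_fun_getElem l (fun a => X - C a)).symm

end Pool.Agent.DU5.PC
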