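import Pool.Agent.Lib.MP_524519_ag.DU5.PC.Iface

/-!
Module WFC: splitting off a factor of a monic polynomial over the power series ring.
-/

set_option autoImplicit false

namespace Pool.Agent.DU5.PC

open Polynomial

namespace WFC

variable {K : Type} [Field K]

theorem complete : IsAdicComplete (IsLocalRing.maximalIdeal (PowerSeries K)) (PowerSeries K) := by
  rw [PowerSeries.maximalIdeal_eq_span_X]
  infer_instance

theorem residue_eq_zero (a : PowerSeries K) :
    IsLocalRing.residue (PowerSeries K) a = 0 ↔ PowerSeries.constantCoeff a = 0 := by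
  rw [IsLocalRing.residue_eq_zero_iff, PowerSeries.maximalIdeal_eq_span_X,
    Ideal.mem_span_singleton, PowerSeries.X_dvd_iff]

end WFC

open WFC in
/-- WFC. -/
theorem wfc : WfcStatement := by
  intro K _ P m h hP hred h0
  have hc : IsAdicComplete (IsLocalRing.maximalIdeal (PowerSeries K)) (PowerSeries K) := complete
  have hcoef : ∀ i, PowerSeries.constantCoeff (P.coeff i) = (X ^ m * h).coeff i := by
    intro i
    rw [← hred, coeff_map]
  have hord : ((P : PowerSeries (PowerSeries K)).map
      (IsLocalRing.residue (PowerSeries K))).order = (m : ℕ∞) := by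
    rw [PowerSeries.order_eq_nat]
    constructor
    · rw [PowerSeries.coeff_map, Polynomial.coeff_coe, Ne, residue_eq_zero, hcoef, mul_comm]
      have : (h * X ^ m).coeff m = h.coeff 0 := by
        have := coeff_mul_X_pow h m 0
        rwa [zero_add] at this
      rw [this, coeff_zero_eq_eval_zero]
      exact h0
    · intro i hi
      rw [PowerSeries.coeff_map, Polynomial.coeff_coe, residue_eq_zero, hcoef, coeff_X_pow_mul',
        if_neg (not_le.2 hi)]
  have hg : (P : PowerSeries (PowerSeries K)).map (IsLocalRing.residue (PowerSeries K)) ≠ 0 := by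
    intro hz
    rw [hz, PowerSeries.order_zero] at hord
    exact ENat.top_ne_natCast m hord
  obtain ⟨W, u, H⟩ := PowerSeries.exists_isWeierstrassFactorization hg
  have hWm : W.natDegree = m := by
    rw [H.natDegree_eq_toNat_order_map, hord]
    rfl
  have hWmon : W.Monic := H.isDistinguishedAt.monic
  have hdiv : P %ₘ W + W * (P /ₘ W) = P := modByMonic_add_div P W
  have hWord : (((W : PowerSeries (PowerSeries K)).map (Ideal.Quotient.mk
      (IsLocalRing.maximalIdeal (PowerSeries K)))).order.toNat) = W.natDegree := by
    have h1 : (1 : PowerSeries (PowerSeries K)).constantCoeff ∉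
        IsLocalRing.maximalIdeal (PowerSeries K) := by
      rw [map_one, ← Ideal.ne_top_iff_one]
      exact Ideal.IsPrime.ne_top inferInstance
    have h2 := H.isDistinguishedAt.coe_natDegree_eq_order_map
      (W : PowerSeries (PowerSeries K)) 1 h1 (by simp)
    rw [← h2]
    rfl
  have hdeg : (P %ₘ W).degree < (((W : PowerSeries (PowerSeries K)).map (Ideal.Quotient.mk
      (IsLocalRing.maximalIdeal (PowerSeries K)))).order.toNat) := by
    rw [hWord, ← degree_eq_natDegree hWmon.ne_zero]
    exact degree_modByMonic_lt P hWmon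
  have hdeg0 : (0 : (PowerSeries K)[X]).degree < (((W : PowerSeries (PowerSeries K)).map
      (Ideal.Quotient.mk (IsLocalRing.maximalIdeal (PowerSeries K)))).order.toNat) := by
    rw [degree_zero]
    exact WithBot.bot_lt_coe _
  have hEq : (W : PowerSeries (PowerSeries K)) * ((P /ₘ W : (PowerSeries K)[X]) :
      PowerSeries (PowerSeries K)) + ((P %ₘ W : (PowerSeries K)[X]) : PowerSeries (PowerSeries K)) =
      (W : PowerSeries (PowerSeries K)) * u + ((0 : (PowerSeries K)[X]) :
        PowerSeries (PowerSeries K)) := by
    have h3 := H.eq_mul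
    rw [Polynomial.coe_zero, add_zero, ← h3, ← Polynomial.coe_mul, ← Polynomial.coe_add, add_comm,
      hdiv]
  have hfin := (H.isDistinguishedAt.isWeierstrassDivisorAt').eq_of_mul_add_eq_mul_add
    hdeg hdeg0 hEq
  have hPW : P = W * (P /ₘ W) := by
    conv_lhs => rw [← hdiv, hfin.2, zero_add]
  refine ⟨W, P /ₘ W, hPW, hWmon, ?_, hWm⟩
  rw [hPW] at hP
  exact Monic.of_mul_monic_left hWmon hP

end Pool.Agent.DU5.PC
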