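import Mathlib

/-!
# DU5, chapter PC: plane curves (tame Newton-Puiseux, duality). Definitions and statements.

`K` is a field, `B = K⟦x⟧ = PowerSeries K`, `x = s^n`, roots of monic polynomials over `B` are in
`K⟦s⟧ = PowerSeries K` after `PowerSeries.expand n`. `R2 K = K⟦x, y⟧`, `x = X 0`, `y = X 1`.
-/

set_option autoImplicit false

namespace Pool.Agent.DU5.PC

open Polynomial

/-- `K⟦x, y⟧`. -/
abbrev R2 (K : Type) [Field K] := MvPowerSeries (Fin 2) K

/-- `∏_{i < d} (i + 1)!`. -/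
def rootExp (d : ℕ) : ℕ := ∏ i ∈ Finset.range d, (i + 1).factorial

/-- Every monic polynomial over `K` of degree `≤ d` splits, and `d!` is invertible in `K`.
(True for algebraically closed fields of characteristic `0`, and for separably closed fields of
characteristic `p > d`.) -/
structure Good (K : Type) [Field K] (d : ℕ) : Prop where
  fac : (d.factorial : K) ≠ 0
  splits : ∀ q : K[X], q.Monic → q.natDegree ≤ d → q.Splits

/-- The substitution `x = s^n`. -/
noncomputable def ex (K : Type) [Field K] (n : ℕ) (hn : n ≠ 0) : PowerSeries K →+* PowerSeries K :=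
  (PowerSeries.expand n hn : PowerSeries K →ₐ[K] PowerSeries K).toRingHom

/-- The value of `h` at the point `x = s^n`, `y = η`. -/
noncomputable def ev {K : Type} [Field K] (n : ℕ) (η : PowerSeries K) (h : R2 K) :
    PowerSeries K :=
  MvPowerSeries.subst ![(PowerSeries.X : PowerSeries K) ^ n, η] h

/-- The value of a polynomial `g ∈ K⟦x⟧[y]` at the point `x = s^n`, `y = η`. -/
noncomputable def pev {K : Type} [Field K] (n : ℕ) (hn : n ≠ 0) (η : PowerSeries K)
    (g : (PowerSeries K)[X]) : PowerSeries K :=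
  (g.map (ex K n hn)).eval η

/-- The inclusion of `K⟦x⟧[y]` in `K⟦x, y⟧`. -/
noncomputable def incl (K : Type) [Field K] : (PowerSeries K)[X] →+* R2 K :=
  Polynomial.eval₂RingHom (PowerSeries.toMvPowerSeries (R := K) (0 : Fin 2)).toRingHom
    (MvPowerSeries.X 1)

/-! ## Statements -/

/-- WFC: splitting off a factor (Weierstrass preparation). `P` monic over `K⟦x⟧`, the reduction of
`P` modulo `x` is `y^m * h` with `h(0) ≠ 0`. -/
def WfcStatement : Prop := ∀ (K : Type) [Field K] (P : (PowerSeries K)[X]) (m : ℕ) (h : K[X]),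
  P.Monic → P.map (PowerSeries.constantCoeff (R := K)) = X ^ m * h → h.eval 0 ≠ 0 →
  ∃ W Q : (PowerSeries K)[X], P = W * Q ∧ W.Monic ∧ Q.Monic ∧ W.natDegree = m

/-- NP: tame Newton-Puiseux. -/
def NpStatement : Prop := ∀ (K : Type) [Field K] (d : ℕ), Good K d →
  ∀ P : (PowerSeries K)[X], P.Monic → P.natDegree = d →
  ∀ (n : ℕ) (hn : n ≠ 0), rootExp d ∣ n →
  ∃ η : Fin d → PowerSeries K,
    P.map (ex K n hn) = ∏ i, (X - C (η i))

/-- EUL: the coefficient of `y^(d-1)` of a product modulo `P` (Lagrange interpolation). -/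
def EulStatement : Prop := ∀ (F : Type) [Field F] (d : ℕ) (η : Fin d → F),
  Function.Injective η → ∀ P : F[X], P = ∏ i, (X - C (η i)) → ∀ g : F[X],
  (g %ₘ P).coeff (d - 1) = ∑ i, g.eval (η i) / (derivative P).eval (η i)

/-- INT: self-duality. `P` monic over `K⟦x⟧` of degree `d ≥ 1`, `w` a polynomial of degree `< d`
over `K((x))`; if the coefficient of `y^(d-1)` of `y^k w` modulo `P` is in `K⟦x⟧` for all `k`, then
`w` has its coefficients in `K⟦x⟧`. -/
def IntStatement : Prop := ∀ (K : Type) [Field K] (P : (PowerSeries K)[X]) (d : ℕ), 0 < d →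
  P.Monic → P.natDegree = d → ∀ w : (LaurentSeries K)[X], w.natDegree < d →
  (∀ k < d, ((X ^ k * w) %ₘ (P.map (algebraMap (PowerSeries K) (LaurentSeries K)))).coeff (d - 1) ∈
    (algebraMap (PowerSeries K) (LaurentSeries K)).range) →
  ∃ v : (PowerSeries K)[X], v.natDegree < d ∧
    v.map (algebraMap (PowerSeries K) (LaurentSeries K)) = w

/-- DVP: divisibility by the derivative. `2 ord P'(η_i) < ord g(η_i) + n` (in `s`) for all `i`
implies `g ∈ (P, P')`; `2 ord P'(η_i) + n < ord g(η_i) + n` implies `g ∈ (P, x P')`. -/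
def DvpStatement : Prop := ∀ (K : Type) [Field K] (P : (PowerSeries K)[X]) (d : ℕ), 0 < d →
  P.Monic → P.natDegree = d → ∀ (n : ℕ) (hn : n ≠ 0) (η : Fin d → PowerSeries K),
  P.map (ex K n hn) = ∏ i, (X - C (η i)) →
  (∀ i, pev n hn (η i) (derivative P) ≠ 0) → ∀ g : (PowerSeries K)[X],
  ((∀ i, PowerSeries.X * pev n hn (η i) (derivative P) ^ 2 ∣
      PowerSeries.X ^ n * pev n hn (η i) g) → g ∈ Ideal.span {P, derivative P}) ∧
  ((∀ i, PowerSeries.X * pev n hn (η i) (derivative P) ^ 2 ∣ pev n hn (η i) g) →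
      g ∈ Ideal.span {P, C PowerSeries.X * derivative P})

/-- GOR: Gorenstein duality. -/
def GorStatement : Prop := ∀ (K : Type) [Field K] (P : (PowerSeries K)[X]) (d : ℕ), 0 < d →
  P.Monic → P.natDegree = d → ∀ θ : (PowerSeries K)[X],
  Module.length K ((PowerSeries K)[X] ⧸ Ideal.span {P, θ}) ≠ ⊤ →
  ∀ I I' : Ideal (PowerSeries K)[X], P ∈ I → P ∈ I' → I * I' ≤ Ideal.span {P, θ} →
  Module.length K ((PowerSeries K)[X] ⧸ Ideal.span {P, θ}) ≤
    Module.length K ((PowerSeries K)[X] ⧸ I) + Module.length K ((PowerSeries K)[X] ⧸ I')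

/-- FNL: if `θ` does not vanish at the points then `(P, θ)` contains a power of `x` and has finite
colength. -/
def FnlStatement : Prop := ∀ (K : Type) [Field K] (P : (PowerSeries K)[X]) (d : ℕ),
  P.Monic → P.natDegree = d → ∀ (n : ℕ) (hn : n ≠ 0) (η : Fin d → PowerSeries K),
  P.map (ex K n hn) = ∏ i, (X - C (η i)) → ∀ θ : (PowerSeries K)[X],
  (∀ i, pev n hn (η i) θ ≠ 0) →
  (∃ N : ℕ, C (PowerSeries.X ^ N) ∈ Ideal.span {P, θ}) ∧
  Module.length K ((PowerSeries K)[X] ⧸ Ideal.span {P, θ}) ≠ ⊤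

/-- LXP: `length (P, x P') = length (P, P') + d`. -/
def LxpStatement : Prop := ∀ (K : Type) [Field K] (P : (PowerSeries K)[X]) (d : ℕ), 0 < d →
  P.Monic → P.natDegree = d → ∀ θ : (PowerSeries K)[X],
  Module.length K ((PowerSeries K)[X] ⧸ Ideal.span {P, θ}) ≠ ⊤ →
  Module.length K ((PowerSeries K)[X] ⧸ Ideal.span {P, C PowerSeries.X * θ}) =
    Module.length K ((PowerSeries K)[X] ⧸ Ideal.span {P, θ}) + d

/-- PCP: the polynomial form of PC. -/
def PcpStatement : Prop := ∀ (K : Type) [Field K] (P : (PowerSeries K)[X]) (d : ℕ), 0 < d →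
  P.Monic → P.natDegree = d → ∀ (n : ℕ) (hn : n ≠ 0) (η : Fin d → PowerSeries K),
  P.map (ex K n hn) = ∏ i, (X - C (η i)) →
  (∀ i, pev n hn (η i) (derivative P) ≠ 0) →
  ∀ (T T' : ℕ) (I I' : Ideal (PowerSeries K)[X]), P ∈ I → P ∈ I' →
  (∀ g ∈ I, ∀ i, PowerSeries.X ^ (T + 1) * pev n hn (η i) (derivative P) ∣
    PowerSeries.X ^ (2 * n) * pev n hn (η i) g) →
  (∀ g ∈ I', ∀ i, PowerSeries.X ^ (T' + 1) * pev n hn (η i) (derivative P) ∣
    PowerSeries.X ^ (2 * n) * pev n hn (η i) g) →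
  (3 * n ≤ T + T' + 1 → Module.length K ((PowerSeries K)[X] ⧸ Ideal.span {P, derivative P}) ≤
    Module.length K ((PowerSeries K)[X] ⧸ I) + Module.length K ((PowerSeries K)[X] ⧸ I')) ∧
  (4 * n ≤ T + T' + 1 → Module.length K ((PowerSeries K)[X] ⧸ Ideal.span {P, derivative P}) + d ≤
    Module.length K ((PowerSeries K)[X] ⧸ I) + Module.length K ((PowerSeries K)[X] ⧸ I'))

/-- `F` has order `≥ d` and contains the monomial `y^d`. -/
structure Reg {K : Type} [Field K] (d : ℕ) (F : R2 K) : Prop where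
  low : ∀ e : Fin 2 →₀ ℕ, e 0 + e 1 < d → MvPowerSeries.coeff e F = 0
  top : MvPowerSeries.coeff (Finsupp.single 1 d) F ≠ 0

/-- WEI: Weierstrass preparation and division in `K⟦x, y⟧`. -/
def WeiStatement : Prop := ∀ (K : Type) [Field K] (d : ℕ) (F : R2 K), 0 < d → Reg d F →
  ∃ (P : (PowerSeries K)[X]) (u : R2 K), IsUnit u ∧ P.Monic ∧ P.natDegree = d ∧
    incl K P = u * F ∧ (∀ j ≤ d, PowerSeries.X ^ (d - j) ∣ P.coeff j) ∧
    ∀ g : R2 K, ∃ (q : R2 K) (r : (PowerSeries K)[X]), g = q * F + incl K r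

/-- EVI: compatibilities: values of polynomials, the derivative. -/
def EviStatement : Prop := ∀ (K : Type) [Field K],
  (∀ (n : ℕ) (hn : n ≠ 0) (η : PowerSeries K), PowerSeries.constantCoeff η = 0 →
    ∀ g : (PowerSeries K)[X], ev n η (incl K g) = pev n hn η g) ∧
  (∀ g : (PowerSeries K)[X], MvPowerSeries.pderiv K 1 (incl K g) = incl K (derivative g)) ∧
  (∀ (n : ℕ) (_ : n ≠ 0) (η : PowerSeries K), PowerSeries.constantCoeff η = 0 →
    ∀ g h : R2 K, ev n η (g * h) = ev n η g * ev n η h ∧ ev n η (g + h) = ev n η g + ev n η h)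

/-- ORD: the roots have order `≥ n` if the coefficients satisfy `x^(d-j) ∣ P_j`. -/
def OrdStatement : Prop := ∀ (K : Type) [Field K] (d : ℕ) (P : (PowerSeries K)[X]), P.Monic →
  P.natDegree = d → (∀ j ≤ d, PowerSeries.X ^ (d - j) ∣ P.coeff j) →
  ∀ (n : ℕ) (hn : n ≠ 0) (η : PowerSeries K), pev n hn η P = 0 → PowerSeries.X ^ n ∣ η

/-- **PC.** `F ∈ K⟦x, y⟧` of order `d`, regular in `y`. There are `n` and `d` points `(s^n, η_i)` of
`F = 0` with the following property, if `F_y` does not vanish at these points: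
`E = length (F, F_y)` is finite. An ideal `I` is of type `T` if `T + 1 + ord F_y ≤ 2n + ord g` at
all these points, for all `g ∈ I`. If `I, I'` are of type `T, T'` then
`length (F, I) + length (F, I') ≥ E` if `T + T' ≥ 3n - 1`, and `≥ E + d` if `T + T' ≥ 4n - 1`. -/
def PcStatement : Prop := ∀ (K : Type) [Field K] (d : ℕ), 0 < d → Good K d →
  ∀ F : R2 K, Reg d F →
  ∃ n : ℕ, n ≠ 0 ∧ (n : K) ≠ 0 ∧ ∃ η : Fin d → PowerSeries K,
    (∀ i, PowerSeries.X ^ n ∣ η i) ∧ (∀ i, ev n (η i) F = 0) ∧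
    ((∀ i, ev n (η i) (MvPowerSeries.pderiv K 1 F) ≠ 0) →
    Module.length K (R2 K ⧸ Ideal.span {F, MvPowerSeries.pderiv K 1 F}) ≠ ⊤ ∧
    ∀ (T T' : ℕ) (I I' : Ideal (R2 K)),
    (∀ g ∈ I, ∀ i, PowerSeries.X ^ (T + 1) * ev n (η i) (MvPowerSeries.pderiv K 1 F) ∣
      PowerSeries.X ^ (2 * n) * ev n (η i) g) →
    (∀ g ∈ I', ∀ i, PowerSeries.X ^ (T' + 1) * ev n (η i) (MvPowerSeries.pderiv K 1 F) ∣
      PowerSeries.X ^ (2 * n) * ev n (η i) g) →
    (3 * n ≤ T + T' + 1 →
      Module.length K (R2 K ⧸ Ideal.span {F, MvPowerSeries.pderiv K 1 F}) ≤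
        Module.length K (R2 K ⧸ (I ⊔ Ideal.span {F})) +
        Module.length K (R2 K ⧸ (I' ⊔ Ideal.span {F}))) ∧
    (4 * n ≤ T + T' + 1 →
      Module.length K (R2 K ⧸ Ideal.span {F, MvPowerSeries.pderiv K 1 F}) + d ≤
        Module.length K (R2 K ⧸ (I ⊔ Ideal.span {F})) +
        Module.length K (R2 K ⧸ (I' ⊔ Ideal.span {F}))))

end Pool.Agent.DU5.PC
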