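import Pool.Agent.Lib.MP_524519_ag.DU5.PC.Iface

/-!
# DU5, PC, module EUL: the coefficient of `y^(d-1)` modulo `P` (Lagrange, Euler)
-/

set_option autoImplicit false

namespace Pool.Agent.DU5.PC

open Polynomial

theorem eul : EulStatement := by
  classical
  intro F _ d η hη P hP g
  rcases Nat.eq_zero_or_pos d with hd | hd
  · subst hd
    have hP1 : P = 1 := by rw [hP]; simp
    rw [hP1, Polynomial.modByMonic_one]
    simp
  have hnod : P = Lagrange.nodal Finset.univ η := by rw [hP, Lagrange.nodal_eq]
  have hmon : P.Monic := by rw [hnod]; exact Lagrange.nodal_monic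
  have hdeg : P.degree = (d : ℕ) := by rw [hnod, Lagrange.degree_nodal]; simp
  set r := g %ₘ P with hr
  have hrdeg : r.degree < (Finset.univ : Finset (Fin d)).card := by
    have := Polynomial.degree_modByMonic_lt g hmon
    rw [hdeg] at this
    simpa using this
  have hinj : Set.InjOn η ((Finset.univ : Finset (Fin d)) : Set (Fin d)) := hη.injOn
  have heval : ∀ i, r.eval (η i) = g.eval (η i) := by
    intro i
    have h1 := Polynomial.modByMonic_add_div g P
    have h2 : P.eval (η i) = 0 := by
      rw [hnod]; exact Lagrange.eval_nodal_at_node (Finset.mem_univ i)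
    calc r.eval (η i) = (r + P * (g /ₘ P)).eval (η i) := by
          rw [eval_add, eval_mul, h2]; ring
      _ = g.eval (η i) := by rw [hr, h1]
  have hc := Lagrange.coeff_eq_sum hinj hrdeg
  have hcard : (Finset.univ : Finset (Fin d)).card = d := by simp
  rw [hcard] at hc
  rw [hc]
  refine Finset.sum_congr rfl fun i hi => ?_
  rw [heval i, hnod, Lagrange.eval_nodal_derivative_eval_node_eq hi, Lagrange.eval_nodal]

end Pool.Agent.DU5.PC
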