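import Pool.Agent.Lib.MP_524519_ag.DU5.PC.Iface

/-!
# DU5, chapter PC, module EVI: values of polynomials and the derivative
-/

set_option autoImplicit false

namespace Pool.Agent.DU5.PC.EVI

open Polynomial

variable {K : Type} [Field K]

theorem hasSubst {n : ℕ} (hn : n ≠ 0) {η : PowerSeries K}
    (hη : PowerSeries.constantCoeff η = 0) :
    MvPowerSeries.HasSubst (![(PowerSeries.X : PowerSeries K) ^ n, η] : Fin 2 → PowerSeries K) := by
  apply MvPowerSeries.hasSubst_of_constantCoeff_zero
  intro s
  fin_cases s
  · show PowerSeries.constantCoeff ((PowerSeries.X : PowerSeries K) ^ n) = 0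
    rw [map_pow, PowerSeries.constantCoeff_X, zero_pow hn]
  · exact hη

theorem ev_incl {n : ℕ} (hn : n ≠ 0) {η : PowerSeries K}
    (hη : PowerSeries.constantCoeff η = 0) (g : (PowerSeries K)[X]) :
    ev n η (incl K g) = pev n hn η g := by
  have hs := hasSubst hn hη
  have h : ((MvPowerSeries.substAlgHom hs).toRingHom.comp (incl K) :
      (PowerSeries K)[X] →+* PowerSeries K) =
      (Polynomial.evalRingHom η).comp (Polynomial.mapRingHom (ex K n hn)) := by
    apply Polynomial.ringHom_ext
    · intro a
      show MvPowerSeries.substAlgHom hs (incl K (C a)) = ((C a).map (ex K n hn)).eval η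
      rw [Polynomial.map_C, Polynomial.eval_C, MvPowerSeries.coe_substAlgHom]
      have h1 : incl K (C a) = PowerSeries.toMvPowerSeries (0 : Fin 2) a := by
        simp [incl]
      rw [h1, PowerSeries.subst_toMvPowerSeries hs]
      show PowerSeries.subst ((PowerSeries.X : PowerSeries K) ^ n) a = PowerSeries.expand n hn a
      rw [PowerSeries.expand_apply]
    · show MvPowerSeries.substAlgHom hs (incl K X) = (X.map (ex K n hn)).eval η
      rw [Polynomial.map_X, Polynomial.eval_X]
      have h1 : incl K X = MvPowerSeries.X (1 : Fin 2) := by simp [incl]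
      rw [h1, MvPowerSeries.substAlgHom_X]
      rfl
  have h2 := congrArg (fun f => f g) h
  have h3 : MvPowerSeries.substAlgHom hs (incl K g) = (g.map (ex K n hn)).eval η := h2
  rw [MvPowerSeries.coe_substAlgHom] at h3
  exact h3

/-- `x`-series have no derivative in `y` -/
theorem pderiv_toMv (a : PowerSeries K) :
    MvPowerSeries.pderiv K (1 : Fin 2) (PowerSeries.toMvPowerSeries (0 : Fin 2) a) = 0 := by
  ext m
  rw [MvPowerSeries.coeff_pderiv, map_zero, PowerSeries.toMvPowerSeries_apply,
    MvPowerSeries.coeff_rename_eq_zero, zero_mul]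
  rintro ⟨x, hx⟩
  have h1 := congrArg (fun f : Fin 2 →₀ ℕ => f 1) hx
  simp only [Finsupp.add_apply, Finsupp.single_eq_same] at h1
  have h2 : (Finsupp.mapDomain (fun _ : Unit => (0 : Fin 2)) x) 1 = 0 := by
    apply Finsupp.mapDomain_of_notMem_range
    rintro ⟨u, hu⟩
    exact absurd hu zero_ne_one
  rw [h2] at h1
  omega

theorem incl_C (a : PowerSeries K) :
    incl K (C a) = PowerSeries.toMvPowerSeries (0 : Fin 2) a := by simp [incl]

theorem incl_X : incl K X = MvPowerSeries.X (1 : Fin 2) := by simp [incl]

theorem pderiv_incl (g : (PowerSeries K)[X]) :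
    MvPowerSeries.pderiv K 1 (incl K g) = incl K (derivative g) := by
  induction g using Polynomial.induction_on' with
  | add p q hp hq => rw [map_add, map_add, hp, hq, derivative_add, map_add]
  | monomial n a =>
    rw [← C_mul_X_pow_eq_monomial, map_mul, map_pow, incl_C, incl_X, Derivation.leibniz,
      pderiv_toMv, MvPowerSeries.pderiv_pow, MvPowerSeries.pderiv_X_self, derivative_C_mul,
      derivative_X_pow, map_mul, incl_C, map_mul, map_pow, incl_X]
    simp
    
end Pool.Agent.DU5.PC.EVI

namespace Pool.Agent.DU5.PC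

theorem evi : EviStatement := by
  intro K _
  refine ⟨fun n hn η hη g => EVI.ev_incl hn hη g, EVI.pderiv_incl, ?_⟩
  intro n hn η hη g h
  have hs := EVI.hasSubst hn hη
  unfold ev
  exact ⟨MvPowerSeries.subst_mul hs g h, MvPowerSeries.subst_add hs g h⟩

end Pool.Agent.DU5.PC
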