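import Mathlib
import Pool.Agent.Lib.MP_524519_ag.DU5.PC.Iface

/-! DU5, chapter PC, module FNL: finite colength. -/

set_option autoImplicit false

namespace Pool.Agent.DU5.PC.FNL

open Polynomial

variable {K : Type} [Field K]

lemma smul_mk (I : Ideal (PowerSeries K)[X]) (c : K) (g : (PowerSeries K)[X]) :
    c • (Ideal.Quotient.mk I g) = Ideal.Quotient.mk I (C (PowerSeries.C c) * g) := by
  have h1 : c • g = C (PowerSeries.C c) * g := by
    ext j
    rw [coeff_smul, coeff_C_mul, PowerSeries.smul_eq_C_mul]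
  rw [← h1]
  rfl

lemma trunc_eq (N : ℕ) (a : PowerSeries K) :
    ((PowerSeries.trunc N a : K[X]) : PowerSeries K) =
      ∑ i ∈ Finset.range N, PowerSeries.C (PowerSeries.coeff i a) * PowerSeries.X ^ i := by
  ext k
  rw [Polynomial.coeff_coe, PowerSeries.coeff_trunc, map_sum]
  simp only [PowerSeries.coeff_C_mul, PowerSeries.coeff_X_pow, mul_ite, mul_one, mul_zero]
  rw [Finset.sum_ite_eq]
  simp only [Finset.mem_range]

/-- Finiteness of the quotient. -/
lemma finite_quot (P : (PowerSeries K)[X]) (hP : P.Monic) (N : ℕ) (I : Ideal (PowerSeries K)[X])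
    (hPI : P ∈ I) (hN : C (PowerSeries.X ^ N : PowerSeries K) ∈ I) :
    Module.Finite K ((PowerSeries K)[X] ⧸ I) := by
  classical
  set d := P.natDegree with hd
  set v : Fin N × Fin d → (PowerSeries K)[X] ⧸ I :=
    fun ij => Ideal.Quotient.mk I (C (PowerSeries.X ^ (ij.1 : ℕ)) * X ^ (ij.2 : ℕ)) with hv
  have hspan : Submodule.span K (Set.range v) = ⊤ := by
    rw [eq_top_iff]
    intro m _
    obtain ⟨g, rfl⟩ := Ideal.Quotient.mk_surjective m
    by_cases hP1 : P = 1
    · have hI : I = ⊤ := by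
        rw [Ideal.eq_top_iff_one, ← hP1]; exact hPI
      have h0 : Ideal.Quotient.mk I g = 0 := by
        rw [Ideal.Quotient.eq_zero_iff_mem, hI]; trivial
      rw [h0]
      exact Submodule.zero_mem _
    have h1 : Ideal.Quotient.mk I g = Ideal.Quotient.mk I (g %ₘ P) := by
      rw [Ideal.Quotient.eq]
      have h2 : g - g %ₘ P = P * (g /ₘ P) := by
        rw [sub_eq_iff_eq_add']
        exact (modByMonic_add_div g P).symm
      rw [h2]
      exact I.mul_mem_right _ hPI
    rw [h1]
    have hlt : (g %ₘ P).natDegree < d := natDegree_modByMonic_lt g hP hP1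
    rw [as_sum_range_C_mul_X_pow' (g %ₘ P) hlt, map_sum]
    apply Submodule.sum_mem
    intro j hj
    rw [Finset.mem_range] at hj
    set a : PowerSeries K := (g %ₘ P).coeff j with ha
    have h3 : Ideal.Quotient.mk I (C a * X ^ j) =
        ∑ i ∈ Finset.range N, (PowerSeries.coeff i a) •
          Ideal.Quotient.mk I (C (PowerSeries.X ^ i) * X ^ j) := by
      have h4 : a = PowerSeries.X ^ N * (PowerSeries.mk fun i => PowerSeries.coeff (i + N) a) +
          ((PowerSeries.trunc N a : K[X]) : PowerSeries K) :=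
        PowerSeries.eq_X_pow_mul_shift_add_trunc N a
      have h5 : Ideal.Quotient.mk I (C a * X ^ j) =
          Ideal.Quotient.mk I (C ((PowerSeries.trunc N a : K[X]) : PowerSeries K) * X ^ j) := by
        rw [Ideal.Quotient.eq, ← sub_mul, ← C_sub]
        have h6 : a - ((PowerSeries.trunc N a : K[X]) : PowerSeries K) =
            PowerSeries.X ^ N * (PowerSeries.mk fun i => PowerSeries.coeff (i + N) a) := by
          rw [sub_eq_iff_eq_add]; exact h4
        rw [h6, C_mul, mul_assoc]
        exact I.mul_mem_right _ hN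
      rw [h5, trunc_eq, map_sum, Finset.sum_mul, map_sum]
      refine Finset.sum_congr rfl (fun i _ => ?_)
      rw [smul_mk, C_mul, mul_assoc]
    rw [h3]
    apply Submodule.sum_mem
    intro i hi
    rw [Finset.mem_range] at hi
    apply Submodule.smul_mem
    apply Submodule.subset_span
    exact ⟨(⟨i, hi⟩, ⟨j, hj⟩), rfl⟩
  exact Module.finite_def.2 ⟨Finset.univ.image v, by simpa using hspan⟩

lemma length_ne_top_of_mem (P : (PowerSeries K)[X]) (hP : P.Monic) (N : ℕ)
    (I : Ideal (PowerSeries K)[X]) (hPI : P ∈ I)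
    (hN : C (PowerSeries.X ^ N : PowerSeries K) ∈ I) :
    Module.length K ((PowerSeries K)[X] ⧸ I) ≠ ⊤ := by
  have := finite_quot P hP N I hPI hN
  exact Module.length_ne_top

lemma ne_zero_of_pev (P : (PowerSeries K)[X]) (d : ℕ) (hP : P.Monic) (hd : P.natDegree = d)
    (n : ℕ) (hn : n ≠ 0) (η : Fin d → PowerSeries K)
    (hη : P.map (ex K n hn) = ∏ i, (X - C (η i))) (θ : (PowerSeries K)[X])
    (hθ : ∀ i, pev n hn (η i) θ ≠ 0) : P.resultant θ d θ.natDegree ≠ 0 := by
  intro h0
  have h1 := resultant_map_map P θ d θ.natDegree (ex K n hn)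
  rw [h0, map_zero, hη] at h1
  have hl : ∏ i ∈ (Finset.univ : Finset (Fin d)), (X - C (η i)).leadingCoeff ≠ 0 := by
    simp
  have h2 := resultant_prod_left (Finset.univ : Finset (Fin d)) (fun i => X - C (η i))
    (θ.map (ex K n hn)) θ.natDegree hl (natDegree_map_le)
  have h3 : (∏ i ∈ (Finset.univ : Finset (Fin d)), (X - C (η i))).natDegree = d := by
    rw [natDegree_prod_of_monic _ _ (fun i _ => monic_X_sub_C _)]
    simp
  rw [h3, h1] at h2
  have h4 : ∀ i : Fin d, (X - C (η i)).resultant (θ.map (ex K n hn)) (X - C (η i)).natDegree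
      θ.natDegree = pev n hn (η i) θ := by
    intro i
    rw [natDegree_X_sub_C, resultant_X_sub_C_left _ _ _ natDegree_map_le]
    rfl
  rw [Finset.prod_congr rfl (fun i _ => h4 i)] at h2
  exact (Finset.prod_ne_zero_iff.2 (fun i _ => hθ i)) h2.symm

end Pool.Agent.DU5.PC.FNL

namespace Pool.Agent.DU5.PC

open Polynomial

/-- FNL. -/
theorem fnl : FnlStatement := by
  intro K _ P d hP hd n hn η hη θ hθ
  have hex : ∃ N : ℕ, C (PowerSeries.X ^ N : PowerSeries K) ∈ Ideal.span {P, θ} := by
    rcases Nat.eq_zero_or_pos d with h0 | h0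
    · have hP1 : P = 1 := by
        apply eq_one_of_monic_natDegree_zero hP
        rw [hd, h0]
      refine ⟨0, ?_⟩
      rw [pow_zero, C_1, ← hP1]
      exact Ideal.subset_span (by simp)
    · have hR := FNL.ne_zero_of_pev P d hP hd n hn η hη θ hθ
      obtain ⟨p, q, -, -, hpq⟩ := exists_mul_add_mul_eq_C_resultant P θ (m := d)
        (n := θ.natDegree) hd.le le_rfl (Or.inl h0.ne')
      obtain ⟨N, u, hu⟩ := IsDiscreteValuationRing.eq_unit_mul_pow_irreducible hR
        (PowerSeries.X_irreducible (R := K))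
      refine ⟨N, ?_⟩
      have h1 : C (PowerSeries.X ^ N : PowerSeries K) =
          C ((u⁻¹ : (PowerSeries K)ˣ) : PowerSeries K) * (P * p + θ * q) := by
        rw [hpq, hu, ← C_mul, ← mul_assoc, Units.inv_mul, one_mul]
      rw [h1]
      apply Ideal.mul_mem_left
      apply Ideal.add_mem
      · exact Ideal.mul_mem_right _ _ (Ideal.subset_span (by simp))
      · exact Ideal.mul_mem_right _ _ (Ideal.subset_span (by simp))
  refine ⟨hex, ?_⟩
  obtain ⟨N, hN⟩ := hex
  exact FNL.length_ne_top_of_mem P hP N _ (Ideal.subset_span (by simp)) hN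

end Pool.Agent.DU5.PC
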