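import Pool.Agent.Lib.MP_524519_ag.DU5.PC.H31.LXP

/-!
# DU5, chapter PC, module GOR: Gorenstein duality
-/

set_option autoImplicit false

namespace Pool.Agent.DU5.PC.GOR

open Polynomial

variable {K : Type} [Field K]

/-- Self-duality modulo an ideal: a polynomial `w` of degree `< deg P` is zero modulo `I` if the
coefficients of `y^(d-1)` of the remainders of `y^k w` are in `I`. -/
theorem coeff_mem {R : Type} [CommRing R] (P : R[X]) (d : ℕ) (hP : P.Monic) (hPd : P.natDegree = d)
    (w : R[X]) (hw : w.degree < (d : ℕ)) (h : ∀ k < d, ((X ^ k * w) %ₘ P).coeff (d - 1) = 0) :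
    w = 0 := by
  nontriviality R
  by_contra hw0
  have hdeg : w.natDegree < d := by
    rw [degree_eq_natDegree hw0] at hw
    exact_mod_cast hw
  have hPdeg : P.degree = (d : ℕ) := by
    rw [degree_eq_natDegree hP.ne_zero, hPd]
  have h1 := h (d - 1 - w.natDegree) (by omega)
  have h2 : (X ^ (d - 1 - w.natDegree) * w) %ₘ P = X ^ (d - 1 - w.natDegree) * w := by
    rw [modByMonic_eq_self_iff hP, hPdeg]
    refine lt_of_le_of_lt (degree_mul_le _ _) ?_
    rw [degree_X_pow, degree_eq_natDegree hw0]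
    exact_mod_cast (by omega : d - 1 - w.natDegree + w.natDegree < d)
  rw [h2, coeff_X_pow_mul', if_pos (by omega)] at h1
  have h3 : d - 1 - (d - 1 - w.natDegree) = w.natDegree := by omega
  rw [h3] at h1
  exact hw0 (leadingCoeff_eq_zero.1 h1)

/-- The functional. -/
noncomputable def lam (P v : (PowerSeries K)[X]) (N d : ℕ) : (PowerSeries K)[X] →ₗ[K] K :=
  (PowerSeries.coeff (R := K) (N - 1)).comp
    (((Polynomial.lcoeff (PowerSeries K) (d - 1)).comp
      ((Polynomial.modByMonicHom P).comp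
        (LinearMap.mulLeft (PowerSeries K) v))).restrictScalars K)

theorem lam_apply (P v : (PowerSeries K)[X]) (N d : ℕ) (g : (PowerSeries K)[X]) :
    lam P v N d g = PowerSeries.coeff (N - 1) (((v * g) %ₘ P).coeff (d - 1)) := rfl

theorem dvd_of_coeff {N : ℕ} (hN : 0 < N) (a : PowerSeries K)
    (h : ∀ j, PowerSeries.coeff (N - 1) (PowerSeries.X ^ j * a) = 0) : PowerSeries.X ^ N ∣ a := by
  rw [PowerSeries.X_pow_dvd_iff]
  intro m hm
  have h1 := h (N - 1 - m)
  rw [PowerSeries.coeff_X_pow_mul', if_pos (by omega)] at h1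
  have : N - 1 - (N - 1 - m) = m := by omega
  rwa [this] at h1

/-- Non-degeneracy. -/
theorem nondeg (P : (PowerSeries K)[X]) (d : ℕ) (hP : P.Monic)
    (hPd : P.natDegree = d) (θ u v : (PowerSeries K)[X]) (N : ℕ) (hN : 0 < N)
    (huv : u * P + v * θ = C (PowerSeries.X ^ N)) (a : (PowerSeries K)[X])
    (h : ∀ b, lam P v N d (a * b) = 0) : a ∈ Ideal.span {P, θ} := by
  have hPdeg : P.degree = (d : ℕ) := by
    rw [degree_eq_natDegree hP.ne_zero, hPd]
  have h1 : ∀ k, (PowerSeries.X : PowerSeries K) ^ N ∣ ((X ^ k * (v * a)) %ₘ P).coeff (d - 1) := by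
    intro k
    apply dvd_of_coeff hN
    intro j
    have h2 := h (C (PowerSeries.X ^ j) * X ^ k)
    rw [lam_apply] at h2
    have h3 : v * (a * (C (PowerSeries.X ^ j) * X ^ k)) =
        (PowerSeries.X ^ j : PowerSeries K) • (X ^ k * (v * a)) := by
      rw [smul_eq_C_mul]
      ring
    rw [h3, smul_modByMonic, coeff_smul, smul_eq_mul] at h2
    exact h2
  -- reduction modulo `x^N`
  set w := (v * a) %ₘ P with hw
  have hwP : ∃ q, v * a = w + P * q := ⟨(v * a) /ₘ P, (modByMonic_add_div _ P).symm⟩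
  obtain ⟨q, hq⟩ := hwP
  set φ := Ideal.Quotient.mk (Ideal.span {(PowerSeries.X : PowerSeries K) ^ N}) with hφ
  have hwd : w.degree < (d : ℕ) := by
    rw [← hPdeg]
    exact degree_modByMonic_lt _ hP
  clear_value w
  have h4 : w.map φ = 0 := by
    have hφnt : P.map φ ≠ 0 ∨ w.map φ = 0 := by
      by_cases hs : Subsingleton (PowerSeries K ⧸ Ideal.span {(PowerSeries.X : PowerSeries K) ^ N})
      · right
        exact Subsingleton.elim _ _
      · left
        rw [not_subsingleton_iff_nontrivial] at hs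
        exact (hP.map φ).ne_zero
    rcases hφnt with hnt | hz
    · have hNT : Nontrivial (PowerSeries K ⧸ Ideal.span {(PowerSeries.X : PowerSeries K) ^ N}) := by
        by_contra hs
        rw [not_nontrivial_iff_subsingleton] at hs
        exact hnt (Subsingleton.elim _ _)
      apply coeff_mem (P.map φ) d (hP.map φ) (by rw [hP.natDegree_map, hPd]) _
      · exact lt_of_le_of_lt degree_map_le hwd
      · intro k hk
        have h5 : (X ^ k * w.map φ) %ₘ P.map φ = ((X ^ k * (v * a)) %ₘ P).map φ := by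
          rw [map_modByMonic _ hP, hq, Polynomial.map_mul, Polynomial.map_add, Polynomial.map_mul, Polynomial.map_pow,
            Polynomial.map_X]
          have h6 : X ^ k * (w.map φ + P.map φ * q.map φ) =
            X ^ k * w.map φ + P.map φ * (X ^ k * q.map φ) := by ring
          rw [h6, add_modByMonic, (modByMonic_eq_zero_iff_dvd (hP.map φ)).2 (dvd_mul_right _ _),
            add_zero]
        rw [h5, coeff_map, hφ, Ideal.Quotient.eq_zero_iff_mem, Ideal.mem_span_singleton]
        exact h1 k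
    · exact hz
  have h5 : C ((PowerSeries.X : PowerSeries K) ^ N) ∣ w := by
    rw [Polynomial.C_dvd_iff_dvd_coeff]
    intro i
    rw [← Ideal.mem_span_singleton, ← Ideal.Quotient.eq_zero_iff_mem, ← hφ, ← coeff_map, h4,
      coeff_zero]
  obtain ⟨w', hw'⟩ := h5
  have h6 : P ∣ a - θ * w' := by
    refine LXP.dvd_of_dvd_C_mul hP (a := PowerSeries.X ^ N) (pow_ne_zero _ PowerSeries.X_ne_zero) ?_
    refine ⟨u * a + θ * q, ?_⟩
    have h7 : C (PowerSeries.X ^ N) * a = u * P * a + θ * (v * a) := by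
      rw [← huv]; ring
    rw [mul_sub, h7, hq, hw']
    ring
  obtain ⟨c, hc⟩ := h6
  rw [Ideal.mem_span_pair]
  exact ⟨c, w', by rw [mul_comm c, ← hc]; ring⟩

/-- The functional vanishes on `(P, θ)`. -/
theorem lam_zero (P : (PowerSeries K)[X]) (d : ℕ) (hP : P.Monic)
    (θ u v : (PowerSeries K)[X]) (N : ℕ) (hN : 0 < N)
    (huv : u * P + v * θ = C (PowerSeries.X ^ N)) (g : (PowerSeries K)[X])
    (hg : g ∈ Ideal.span {P, θ}) : lam P v N d g = 0 := by
  rw [Ideal.mem_span_pair] at hg
  obtain ⟨a, b, rfl⟩ := hg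
  have h1 : v * (a * P + b * θ) = (PowerSeries.X ^ N : PowerSeries K) • b +
      P * (v * a - u * b) := by
    rw [smul_eq_C_mul, ← huv]
    ring
  rw [lam_apply, h1, add_modByMonic, (modByMonic_eq_zero_iff_dvd hP).2 (dvd_mul_right _ _),
    add_zero, smul_modByMonic, coeff_smul, smul_eq_mul, PowerSeries.coeff_X_pow_mul',
    if_neg (by omega)]

end Pool.Agent.DU5.PC.GOR

namespace Pool.Agent.DU5.PC

open Polynomial

open GOR in
/-- GOR. -/
theorem gor : GorStatement := by
  intro K _ P d hd hP hPd θ hfin I I' hPI hPI' hII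
  set J : Ideal (PowerSeries K)[X] := Ideal.span {P, θ} with hJ
  obtain ⟨N, u, v, hN, huv⟩ : ∃ (N : ℕ) (u v : (PowerSeries K)[X]), 0 < N ∧
      u * P + v * θ = C (PowerSeries.X ^ N) := by
    obtain ⟨N, hN⟩ := LXP.exists_pow_mem J hfin
    rw [hJ, Ideal.mem_span_pair] at hN
    obtain ⟨u, v, huv⟩ := hN
    refine ⟨N + 1, C PowerSeries.X * u, C PowerSeries.X * v, Nat.succ_pos _, ?_⟩
    rw [pow_succ, C_mul, ← huv]
    ring
  have hQ : Module.Finite K ((PowerSeries K)[X] ⧸ J) := by
    rw [Module.length_ne_top_iff, isFiniteLength_iff_isNoetherian_isArtinian] at hfin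
    have := hfin.1
    infer_instance
  -- the functional on the quotient
  let lamQ : ((PowerSeries K)[X] ⧸ J) →ₗ[K] K :=
    ((J.restrictScalars K).liftQ (lam P v N d) (fun g hg =>
      lam_zero P d hP θ u v N hN huv g hg)).comp
      (Submodule.Quotient.restrictScalarsEquiv K J).symm.toLinearMap
  have hlamQ : ∀ g, lamQ (Ideal.Quotient.mk J g) = lam P v N d g := fun g => rfl
  let B : LinearMap.BilinForm K ((PowerSeries K)[X] ⧸ J) :=
    (LinearMap.mul K ((PowerSeries K)[X] ⧸ J)).compr₂ lamQ
  have hB : ∀ a b, B (Ideal.Quotient.mk J a) (Ideal.Quotient.mk J b) = lam P v N d (a * b) :=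
    fun a b => rfl
  have hsymm : B.IsSymm := by
    constructor
    intro a b
    obtain ⟨a, rfl⟩ := Ideal.Quotient.mk_surjective a
    obtain ⟨b, rfl⟩ := Ideal.Quotient.mk_surjective b
    show B (Ideal.Quotient.mk J a) (Ideal.Quotient.mk J b) =
      B (Ideal.Quotient.mk J b) (Ideal.Quotient.mk J a)
    rw [hB, hB, mul_comm]
  have hleft : ∀ a, (∀ b, B a b = 0) → a = 0 := by
    intro a ha
    obtain ⟨a, rfl⟩ := Ideal.Quotient.mk_surjective a
    rw [Ideal.Quotient.eq_zero_iff_mem, hJ]
    apply nondeg P d hP hPd θ u v N hN huv a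
    intro b
    rw [← hB]
    exact ha _
  have hnd : B.Nondegenerate := by
    refine ⟨hleft, ?_⟩
    intro b hb
    apply hleft
    intro a
    rw [← hsymm.eq]
    exact hb a
  -- the images of the ideals
  let π : (PowerSeries K)[X] →ₗ[K] ((PowerSeries K)[X] ⧸ J) := (Ideal.Quotient.mkₐ K J).toLinearMap
  have hπ : ∀ g, π g = Ideal.Quotient.mk J g := fun g => rfl
  have hπs : Function.Surjective π := Ideal.Quotient.mk_surjective
  have key : ∀ L : Ideal (PowerSeries K)[X],
      Module.length K (((PowerSeries K)[X] ⧸ J) ⧸ (L.restrictScalars K).map π) ≤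
        Module.length K ((PowerSeries K)[X] ⧸ L) := by
    intro L
    let f : ((PowerSeries K)[X] ⧸ L) →ₗ[K]
        (((PowerSeries K)[X] ⧸ J) ⧸ (L.restrictScalars K).map π) :=
      ((L.restrictScalars K).liftQ ((((L.restrictScalars K).map π).mkQ).comp π) (by
        intro g hg
        rw [LinearMap.mem_ker, LinearMap.comp_apply, Submodule.mkQ_apply,
          Submodule.Quotient.mk_eq_zero]
        exact ⟨g, hg, rfl⟩)).comp
      (Submodule.Quotient.restrictScalarsEquiv K L).symm.toLinearMap
    apply Module.length_le_of_surjective f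
    intro y
    obtain ⟨z, rfl⟩ := Submodule.mkQ_surjective _ y
    obtain ⟨g, rfl⟩ := hπs z
    exact ⟨Ideal.Quotient.mk L g, rfl⟩
  have horth : (I'.restrictScalars K).map π ≤ B.orthogonal ((I.restrictScalars K).map π) := by
    rintro _ ⟨b, hb, rfl⟩
    rw [LinearMap.BilinForm.mem_orthogonal_iff]
    rintro _ ⟨a, ha, rfl⟩
    rw [hπ, hπ, hB]
    exact lam_zero P d hP θ u v N hN huv _ (hII (Ideal.mul_mem_mul ha hb))
  have h1 := Submodule.finrank_mono horth
  rw [LinearMap.BilinForm.finrank_orthogonal hnd] at h1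
  have h2 := Submodule.finrank_quotient_add_finrank ((I.restrictScalars K).map π)
  have h3 := Submodule.finrank_quotient_add_finrank ((I'.restrictScalars K).map π)
  have h4 : Module.finrank K ((PowerSeries K)[X] ⧸ J) ≤
      Module.finrank K (((PowerSeries K)[X] ⧸ J) ⧸ (I.restrictScalars K).map π) +
      Module.finrank K (((PowerSeries K)[X] ⧸ J) ⧸ (I'.restrictScalars K).map π) := by
    omega
  refine le_trans ?_ (add_le_add (key I) (key I'))
  rw [Module.length_eq_finrank, Module.length_eq_finrank, Module.length_eq_finrank]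
  exact_mod_cast h4

end Pool.Agent.DU5.PC
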