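import Pool.Agent.Lib.MP_524519_ag.DU5.PC.Iface

set_option autoImplicit false

namespace Pool.Agent.DU5.PC

open Polynomial

namespace INT

theorem coeff_mem {A L : Type} [CommRing A] [Nontrivial A] [Field L] (f : A →+* L) (P : A[X]) (d : ℕ)
    (hd : 0 < d) (hP : P.Monic) (hPd : P.natDegree = d) (w : L[X]) (hw : w.natDegree < d)
    (h : ∀ k < d, ((X ^ k * w) %ₘ (P.map f)).coeff (d - 1) ∈ f.range) (j : ℕ) (hj : j < d) :
    w.coeff (d - 1 - j) ∈ f.range := by
  induction j using Nat.strong_induction_on with
  | _ j ih =>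
    set m := d - 1 - j with hm
    have hmd : m + j = d - 1 := by omega
    -- the high part
    set hi : L[X] := ∑ i ∈ Finset.Ico (m + 1) d, C (w.coeff i) * X ^ i with hhi
    set lo : L[X] := ∑ i ∈ Finset.range (m + 1), C (w.coeff i) * X ^ i with hlo
    have hsplit : w = lo + hi := by
      conv_lhs => rw [w.as_sum_range_C_mul_X_pow' hw]
      rw [hlo, hhi, Finset.range_eq_Ico, Finset.range_eq_Ico,
        Finset.sum_Ico_consecutive _ (Nat.zero_le _) (by omega)]
    have hhil : ∃ v : A[X], v.map f = hi := by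
      have : ∀ i ∈ Finset.Ico (m + 1) d, ∃ a : A, f a = w.coeff i := by
        intro i hi'
        rw [Finset.mem_Ico] at hi'
        have := ih (d - 1 - i) (by omega) (by omega)
        rwa [show d - 1 - (d - 1 - i) = i by omega] at this
      choose! a ha using this
      refine ⟨∑ i ∈ Finset.Ico (m + 1) d, C (a i) * X ^ i, ?_⟩
      rw [Polynomial.map_sum, hhi]
      refine Finset.sum_congr rfl fun i hi' => ?_
      rw [Polynomial.map_mul, Polynomial.map_pow, map_X, map_C, ha i hi']
    obtain ⟨v, hv⟩ := hhil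
    have hlod : lo.degree < ((m + 1 : ℕ) : WithBot ℕ) := by
      rw [hlo]
      refine (degree_sum_le _ _).trans_lt ?_
      rw [Finset.sup_lt_iff (WithBot.bot_lt_coe _)]
      intro i hi'
      rw [Finset.mem_range] at hi'
      exact (degree_C_mul_X_pow_le i _).trans_lt (by exact_mod_cast hi')
    have hPm : (P.map f).Monic := hP.map f
    have hPdeg : (P.map f).degree = (d : WithBot ℕ) := by
      rw [hP.degree_map f, degree_eq_natDegree hP.ne_zero, hPd]
    have h1 := h j hj
    have e1 : (X ^ j * w) %ₘ (P.map f) = X ^ j * lo + ((X ^ j * v) %ₘ P).map f := by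
      rw [hsplit, mul_add, add_modByMonic, ← hv, map_modByMonic f hP, Polynomial.map_mul,
        Polynomial.map_pow, map_X]
      congr 1
      rw [modByMonic_eq_self_iff hPm, hPdeg, degree_mul, degree_X_pow]
      have h2 : (j : WithBot ℕ) + lo.degree < (j : WithBot ℕ) + ((m + 1 : ℕ) : WithBot ℕ) :=
        WithBot.add_lt_add_left (WithBot.coe_ne_bot) hlod
      refine h2.trans_le ?_
      exact_mod_cast (by omega : j + (m + 1) ≤ d)
    have e2 : (X ^ j * lo).coeff (d - 1) = w.coeff m := by
      rw [← hmd, coeff_X_pow_mul]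
      have : (lo + hi).coeff m = lo.coeff m := by
        rw [coeff_add]
        have : hi.coeff m = 0 := by
          rw [hhi, finsetSum_coeff]
          refine Finset.sum_eq_zero fun i hi' => ?_
          rw [Finset.mem_Ico] at hi'
          rw [coeff_C_mul_X_pow, if_neg (by omega)]
        rw [this, add_zero]
      rw [← this, ← hsplit]
    rw [e1, coeff_add, e2, coeff_map] at h1
    have h3 : f (((X ^ j * v) %ₘ P).coeff (d - 1)) ∈ f.range := ⟨_, rfl⟩
    have h4 := Subring.sub_mem _ h1 h3
    rwa [add_sub_cancel_right] at h4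

end INT

/-- INT. -/
theorem int : IntStatement := by
  intro K _ P d hd hP hPd w hw h
  set f := algebraMap (PowerSeries K) (LaurentSeries K) with hf
  have hco : ∀ n, w.coeff n ∈ Set.range f := by
    intro n
    rcases Nat.lt_or_ge n d with hn | hn
    · have := INT.coeff_mem f P d hd hP hPd w hw h (d - 1 - n) (by omega)
      rw [show d - 1 - (d - 1 - n) = n by omega] at this
      exact this
    · rw [coeff_eq_zero_of_natDegree_lt (lt_of_lt_of_le hw hn)]
      exact ⟨0, map_zero f⟩
  obtain ⟨v, hv, hvd⟩ := exists_degree_eq_of_mem_lifts ((lifts_iff_coeff_lifts w).2 hco)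
  exact ⟨v, by rw [natDegree_eq_of_degree_eq hvd]; exact hw, hv⟩

end Pool.Agent.DU5.PC
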