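import Pool.Agent.Lib.MP_524519_ag.DU5.PC.Iface

/-! ORD: the roots have order at least `n`. -/

set_option autoImplicit false

namespace Pool.Agent.DU5.PC

open Polynomial

theorem ORD.ex_X_pow {K : Type} [Field K] (n : ℕ) (hn : n ≠ 0) (k : ℕ) :
    ex K n hn (PowerSeries.X ^ k) = PowerSeries.X ^ (n * k) := by
  rw [map_pow, pow_mul]
  congr 1
  exact PowerSeries.expand_X n hn

theorem ord : OrdStatement := by
  intro K _ d P hP hd hdiv n hn η h0
  by_cases hη : η = 0
  · rw [hη]; exact dvd_zero _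
  obtain ⟨e, u, hu, hηe⟩ : ∃ (e : ℕ) (u : PowerSeries K), PowerSeries.constantCoeff u ≠ 0 ∧
      η = PowerSeries.X ^ e * u := by
    have hfin := PowerSeries.order_eq_top.not.mpr hη
    refine ⟨η.order.toNat, PowerSeries.divXPowOrder η, ?_, ?_⟩
    · exact PowerSeries.constantCoeff_divXPowOrder_eq_zero_iff.not.mpr hη
    · exact (PowerSeries.X_pow_order_mul_divXPowOrder).symm
  by_contra hcon
  have hen : e < n := by
    by_contra h
    apply hcon
    rw [hηe]
    exact (pow_dvd_pow _ (not_lt.mp h)).trans (Dvd.intro _ rfl)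
  have hev : pev n hn η P = η ^ d + ∑ j ∈ Finset.range d, ex K n hn (P.coeff j) * η ^ j := by
    unfold pev
    rw [Polynomial.eval_map, Polynomial.eval₂_eq_sum_range, hd, Finset.sum_range_succ]
    have : P.coeff d = 1 := by rw [← hd]; exact hP
    rw [this, map_one, one_mul, add_comm]
  rw [h0] at hev
  have hs : PowerSeries.X ^ (e * d + 1) ∣
      ∑ j ∈ Finset.range d, ex K n hn (P.coeff j) * η ^ j := by
    refine Finset.dvd_sum fun j hj => ?_
    have hj' := Finset.mem_range.1 hj
    obtain ⟨c, hc⟩ := hdiv j hj'.le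
    rw [hc, map_mul, ORD.ex_X_pow, hηe, mul_pow, ← pow_mul]
    have h1 : e * d + 1 ≤ n * (d - j) + e * j := by
      obtain ⟨k, rfl⟩ : ∃ k, d = j + 1 + k := ⟨d - (j + 1), by omega⟩
      have : j + 1 + k - j = 1 + k := by omega
      rw [this]
      nlinarith
    have h2 : PowerSeries.X ^ (n * (d - j)) * ex K n hn c * (PowerSeries.X ^ (e * j) * u ^ j) =
        PowerSeries.X ^ (n * (d - j) + e * j) * (ex K n hn c * u ^ j) := by
      rw [pow_add]; ring
    rw [h2]
    exact Dvd.dvd.mul_right (pow_dvd_pow _ h1) _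
  have h3 : PowerSeries.X ^ (e * d + 1) ∣ η ^ d := by
    have : η ^ d = -∑ j ∈ Finset.range d, ex K n hn (P.coeff j) * η ^ j := by
      linear_combination -hev
    rw [this]
    exact (dvd_neg).mpr hs
  rw [hηe, mul_pow, ← pow_mul, pow_succ] at h3
  have h4 : PowerSeries.X ∣ u ^ d :=
    (mul_dvd_mul_iff_left (pow_ne_zero _ PowerSeries.X_ne_zero)).mp h3
  rw [PowerSeries.X_dvd_iff, map_pow] at h4
  exact pow_ne_zero _ hu h4

end Pool.Agent.DU5.PC
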