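import Pool.Agent.Lib.MP_524519_ag.DU5.PC.Iface

set_option autoImplicit false

namespace Pool.Agent.DU5.PC

open Polynomial

namespace PCP

theorem pev_mul {K : Type} [Field K] (n : ℕ) (hn : n ≠ 0) (η : PowerSeries K)
    (g h : (PowerSeries K)[X]) : pev n hn η (g * h) = pev n hn η g * pev n hn η h := by
  unfold pev
  rw [Polynomial.map_mul, eval_mul]

theorem cancel {K : Type} [Field K] {D G G' : PowerSeries K} {n N T T' : ℕ} {M : ℕ}
    (hNM : N + M = 4 * n) (hT : N ≤ T + T' + 1)
    (h1 : PowerSeries.X ^ (T + 1) * D ∣ PowerSeries.X ^ (2 * n) * G)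
    (h2 : PowerSeries.X ^ (T' + 1) * D ∣ PowerSeries.X ^ (2 * n) * G') :
    PowerSeries.X * D ^ 2 ∣ PowerSeries.X ^ M * (G * G') := by
  have h3 := mul_dvd_mul h1 h2
  obtain ⟨e, he⟩ := Nat.exists_eq_add_of_le hT
  have e1 : (PowerSeries.X : PowerSeries K) ^ (T + 1) * D * (PowerSeries.X ^ (T' + 1) * D) =
      PowerSeries.X ^ N * (PowerSeries.X * D ^ 2 * PowerSeries.X ^ e) := by
    have : (PowerSeries.X : PowerSeries K) ^ (T + 1) * PowerSeries.X ^ (T' + 1) =
        PowerSeries.X ^ N * PowerSeries.X * PowerSeries.X ^ e := by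
      rw [← pow_add, ← pow_succ, ← pow_add]
      congr 1
      omega
    calc (PowerSeries.X : PowerSeries K) ^ (T + 1) * D * (PowerSeries.X ^ (T' + 1) * D) =
        (PowerSeries.X ^ (T + 1) * PowerSeries.X ^ (T' + 1)) * D ^ 2 := by ring
      _ = _ := by rw [this]; ring
  have e2 : (PowerSeries.X : PowerSeries K) ^ (2 * n) * G * (PowerSeries.X ^ (2 * n) * G') =
      PowerSeries.X ^ N * (PowerSeries.X ^ M * (G * G')) := by
    have : (PowerSeries.X : PowerSeries K) ^ (2 * n) * PowerSeries.X ^ (2 * n) =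
        PowerSeries.X ^ N * PowerSeries.X ^ M := by
      rw [← pow_add, ← pow_add, hNM]
      congr 1
      omega
    calc (PowerSeries.X : PowerSeries K) ^ (2 * n) * G * (PowerSeries.X ^ (2 * n) * G') =
        (PowerSeries.X ^ (2 * n) * PowerSeries.X ^ (2 * n)) * (G * G') := by ring
      _ = _ := by rw [this]; ring
  rw [e1, e2, mul_dvd_mul_iff_left (pow_ne_zero N PowerSeries.X_ne_zero)] at h3
  exact (dvd_mul_right _ _).trans h3

end PCP

/-- PCP: the polynomial form of PC. -/
theorem pcp (hD : DvpStatement) (hG : GorStatement) (hF : FnlStatement) (hL : LxpStatement) :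
    PcpStatement := by
  intro K _ P d hd hP hPd n hn η hη hP' T T' I I' hPI hPI' hI hI'
  have hfin := (hF K P d hP hPd n hn η hη (derivative P) hP').2
  have hlxp := hL K P d hd hP hPd (derivative P) hfin
  refine ⟨fun hT => ?_, fun hT => ?_⟩
  · refine hG K P d hd hP hPd (derivative P) hfin I I' hPI hPI' (Ideal.mul_le.2 ?_)
    intro g hg g' hg'
    refine (hD K P d hd hP hPd n hn η hη hP' (g * g')).1 fun i => ?_
    rw [PCP.pev_mul]
    exact PCP.cancel (N := 3 * n) (M := n) (by ring) hT (hI g hg i)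
      (hI' g' hg' i)
  · rw [← hlxp]
    refine hG K P d hd hP hPd (C PowerSeries.X * derivative P) ?_ I I' hPI hPI'
      (Ideal.mul_le.2 ?_)
    · rw [hlxp]
      exact WithTop.add_ne_top.2 ⟨hfin, ENat.natCast_ne_top d⟩
    · intro g hg g' hg'
      refine (hD K P d hd hP hPd n hn η hη hP' (g * g')).2 fun i => ?_
      rw [PCP.pev_mul]
      have := PCP.cancel (N := 4 * n) (M := 0) (by ring) hT (hI g hg i)
        (hI' g' hg' i)
      rwa [pow_zero, one_mul] at this

end Pool.Agent.DU5.PC
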