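import Pool.Agent.Lib.MP_524519_ag.DU5.PC.WFC
import Pool.Agent.Lib.MP_524519_ag.DU5.PC.EVI

/-!
# DU5, chapter PC, module WEI: Weierstrass preparation and division in `K⟦x, y⟧`
-/

set_option autoImplicit false

namespace Pool.Agent.DU5.PC.WEI

open Polynomial

variable {K : Type} [Field K]

/-- The exponent of `x^i y^j`. -/
noncomputable def fs (i j : ℕ) : Fin 2 →₀ ℕ := Finsupp.single 0 i + Finsupp.single 1 j

theorem fs_zero (i j : ℕ) : fs i j 0 = i := by simp [fs]

theorem fs_one (i j : ℕ) : fs i j 1 = j := by simp [fs]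

theorem fs_eta (e : Fin 2 →₀ ℕ) : fs (e 0) (e 1) = e := by
  ext k
  fin_cases k
  · exact fs_zero _ _
  · exact fs_one _ _

theorem fs_add (a b c d : ℕ) : fs (a + c) (b + d) = fs a b + fs c d := by
  ext k
  fin_cases k
  · show fs (a + c) (b + d) 0 = fs a b 0 + fs c d 0
    rw [fs_zero, fs_zero, fs_zero]
  · show fs (a + c) (b + d) 1 = fs a b 1 + fs c d 1
    rw [fs_one, fs_one, fs_one]

theorem sum_anti (i j : ℕ) (f : (Fin 2 →₀ ℕ) → (Fin 2 →₀ ℕ) → K) :
    ∑ p ∈ Finset.HasAntidiagonal.antidiagonal (fs i j), f p.1 p.2 =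
      ∑ q ∈ Finset.HasAntidiagonal.antidiagonal j, ∑ r ∈ Finset.HasAntidiagonal.antidiagonal i,
        f (fs r.1 q.1) (fs r.2 q.2) := by
  rw [← Finset.sum_product' (Finset.HasAntidiagonal.antidiagonal j)
    (Finset.HasAntidiagonal.antidiagonal i) (fun q r => f (fs r.1 q.1) (fs r.2 q.2))]
  refine Finset.sum_bij' (fun p _ => ((p.1 1, p.2 1), (p.1 0, p.2 0)))
    (fun t _ => (fs t.2.1 t.1.1, fs t.2.2 t.1.2)) ?_ ?_ ?_ ?_ ?_
  · intro p hp
    rw [Finset.HasAntidiagonal.mem_antidiagonal] at hp
    rw [Finset.mem_product, Finset.HasAntidiagonal.mem_antidiagonal, Finset.HasAntidiagonal.mem_antidiagonal]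
    constructor
    · have := congrArg (fun e : Fin 2 →₀ ℕ => e 1) hp
      simpa [fs_one] using this
    · have := congrArg (fun e : Fin 2 →₀ ℕ => e 0) hp
      simpa [fs_zero] using this
  · intro t ht
    rw [Finset.mem_product, Finset.HasAntidiagonal.mem_antidiagonal, Finset.HasAntidiagonal.mem_antidiagonal] at ht
    rw [Finset.HasAntidiagonal.mem_antidiagonal]
    show fs t.2.1 t.1.1 + fs t.2.2 t.1.2 = fs i j
    rw [← fs_add, ht.1, ht.2]
  · intro p hp
    show (fs (p.1 0) (p.1 1), fs (p.2 0) (p.2 1)) = p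
    rw [fs_eta, fs_eta]
  · intro t ht
    show (((fs t.2.1 t.1.1) 1, (fs t.2.2 t.1.2) 1), ((fs t.2.1 t.1.1) 0, (fs t.2.2 t.1.2) 0)) = t
    rw [fs_one, fs_one, fs_zero, fs_zero]
  · intro p hp
    show f p.1 p.2 = f (fs (p.1 0) (p.1 1)) (fs (p.2 0) (p.2 1))
    rw [fs_eta, fs_eta]

/-- `K⟦x, y⟧ = K⟦x⟧⟦y⟧`. -/
noncomputable def phi (K : Type) [Field K] : R2 K ≃+* PowerSeries (PowerSeries K) where
  toFun g := PowerSeries.mk fun j => PowerSeries.mk fun i => MvPowerSeries.coeff (fs i j) g
  invFun G := fun e => PowerSeries.coeff (e 0) (PowerSeries.coeff (e 1) G)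
  left_inv g := by
    ext e
    show PowerSeries.coeff (e 0) (PowerSeries.coeff (e 1) (PowerSeries.mk fun j =>
      PowerSeries.mk fun i => MvPowerSeries.coeff (fs i j) g)) = MvPowerSeries.coeff e g
    rw [PowerSeries.coeff_mk, PowerSeries.coeff_mk, fs_eta]
  right_inv G := by
    ext j i
    rw [PowerSeries.coeff_mk, PowerSeries.coeff_mk]
    show PowerSeries.coeff (fs i j 0) (PowerSeries.coeff (fs i j 1) G) = _
    rw [fs_zero, fs_one]
  map_mul' g h := by
    ext j i
    rw [PowerSeries.coeff_mk, PowerSeries.coeff_mk, MvPowerSeries.coeff_mul,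
      sum_anti i j (fun a b => MvPowerSeries.coeff a g * MvPowerSeries.coeff b h),
      PowerSeries.coeff_mul, map_sum]
    refine Finset.sum_congr rfl fun q _ => ?_
    rw [PowerSeries.coeff_mul]
    refine Finset.sum_congr rfl fun r _ => ?_
    rw [PowerSeries.coeff_mk, PowerSeries.coeff_mk, PowerSeries.coeff_mk, PowerSeries.coeff_mk]
  map_add' g h := by
    ext j i
    rw [map_add, map_add, PowerSeries.coeff_mk, PowerSeries.coeff_mk, PowerSeries.coeff_mk,
      PowerSeries.coeff_mk, PowerSeries.coeff_mk, PowerSeries.coeff_mk, map_add]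

theorem coeff_phi (g : R2 K) (i j : ℕ) :
    PowerSeries.coeff i (PowerSeries.coeff j (phi K g)) = MvPowerSeries.coeff (fs i j) g := by
  show PowerSeries.coeff i (PowerSeries.coeff j (PowerSeries.mk fun j =>
      PowerSeries.mk fun i => MvPowerSeries.coeff (fs i j) g)) = _
  rw [PowerSeries.coeff_mk, PowerSeries.coeff_mk]

theorem coeff_toMv (a : PowerSeries K) (e : Fin 2 →₀ ℕ) :
    MvPowerSeries.coeff e (PowerSeries.toMvPowerSeries (0 : Fin 2) a) =
      if e 1 = 0 then PowerSeries.coeff (e 0) a else 0 := by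
  rw [PowerSeries.toMvPowerSeries_apply]
  split_ifs with h
  · have he : Finsupp.mapDomain (fun _ : Unit => (0 : Fin 2)) (Finsupp.single () (e 0)) = e := by
      rw [Finsupp.mapDomain_single]
      ext k
      fin_cases k
      · simp
      · simpa using h.symm
    rw [MvPowerSeries.coeff_rename]
    rw [Finset.sum_eq_single (Finsupp.single () (e 0))]
    · rfl
    · intro x hx hx2
      exfalso
      apply hx2
      rw [Set.Finite.mem_toFinset, Set.mem_preimage, Set.mem_singleton_iff] at hx
      have h1 := congrArg (fun f : Fin 2 →₀ ℕ => f 0) hx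
      ext
      rw [Finsupp.single_eq_same, ← h1]
      have : x = Finsupp.single () (x ()) := by
        ext
        simp
      rw [this, Finsupp.mapDomain_single]
      simp
    · intro hx
      exfalso
      apply hx
      rw [Set.Finite.mem_toFinset, Set.mem_preimage, Set.mem_singleton_iff]
      exact he
  · apply MvPowerSeries.coeff_rename_eq_zero
    rintro ⟨x, hx⟩
    have h1 := congrArg (fun f : Fin 2 →₀ ℕ => f 1) hx
    have h2 : (Finsupp.mapDomain (fun _ : Unit => (0 : Fin 2)) x) 1 = 0 := by
      apply Finsupp.mapDomain_of_notMem_range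
      rintro ⟨u, hu⟩
      exact absurd hu zero_ne_one
    exact h (h1 ▸ h2)

theorem phi_incl (g : (PowerSeries K)[X]) : phi K (incl K g) = (g : PowerSeries (PowerSeries K)) := by
  have h : (phi K).toRingHom.comp (incl K) = Polynomial.coeToPowerSeries.ringHom := by
    apply Polynomial.ringHom_ext
    · intro a
      show phi K (incl K (C a)) = ((C a : (PowerSeries K)[X]) : PowerSeries (PowerSeries K))
      rw [EVI.incl_C]
      ext j i
      rw [coeff_phi, coeff_toMv, fs_zero, fs_one, Polynomial.coeff_coe, Polynomial.coeff_C]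
      split_ifs
      · rfl
      · simp
    · show phi K (incl K X) = ((X : (PowerSeries K)[X]) : PowerSeries (PowerSeries K))
      rw [EVI.incl_X]
      ext j i
      rw [coeff_phi, Polynomial.coeff_coe, Polynomial.coeff_X, MvPowerSeries.coeff_X]
      by_cases hj : 1 = j
      · rw [if_pos hj, PowerSeries.coeff_one]
        by_cases hi : i = 0
        · rw [if_pos hi, if_pos]
          rw [hi, ← hj]
          simp [fs]
        · rw [if_neg hi, if_neg]
          intro h
          apply hi
          rw [← fs_zero i j, h]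
          simp
      · rw [if_neg hj, map_zero, if_neg]
        intro h
        apply hj
        rw [← fs_one i j, h]
        simp
  exact congrArg (fun f => f g) h

end Pool.Agent.DU5.PC.WEI

namespace Pool.Agent.DU5.PC

open Polynomial

open WEI in
/-- WEI. -/
theorem wei : WeiStatement := by
  intro K _ d F hd hF
  have hc : IsAdicComplete (IsLocalRing.maximalIdeal (PowerSeries K)) (PowerSeries K) :=
    WFC.complete
  have hord : ((phi K F).map (IsLocalRing.residue (PowerSeries K))).order = (d : ℕ∞) := by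
    rw [PowerSeries.order_eq_nat]
    constructor
    · rw [PowerSeries.coeff_map, Ne, WFC.residue_eq_zero,
        ← PowerSeries.coeff_zero_eq_constantCoeff_apply, coeff_phi]
      have : fs 0 d = Finsupp.single 1 d := by simp [fs]
      rw [this]
      exact hF.top
    · intro i hi
      rw [PowerSeries.coeff_map, WFC.residue_eq_zero,
        ← PowerSeries.coeff_zero_eq_constantCoeff_apply, coeff_phi]
      apply hF.low
      rw [fs_zero, fs_one]
      omega
  have hg : (phi K F).map (IsLocalRing.residue (PowerSeries K)) ≠ 0 := by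
    intro hz
    rw [hz, PowerSeries.order_zero] at hord
    exact ENat.top_ne_natCast d hord
  obtain ⟨P, u', H⟩ := PowerSeries.exists_isWeierstrassFactorization hg
  have hPd : P.natDegree = d := by
    rw [H.natDegree_eq_toNat_order_map, hord]
    rfl
  obtain ⟨v', hv'⟩ := H.isUnit.exists_right_inv
  have hPF : incl K P = (phi K).symm v' * F := by
    apply (phi K).injective
    rw [phi_incl, map_mul, RingEquiv.apply_symm_apply, H.eq_mul]
    calc (P : PowerSeries (PowerSeries K)) = P * 1 := (mul_one _).symm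
      _ = P * (u' * v') := by rw [hv']
      _ = v' * (P * u') := by ring
  refine ⟨P, (phi K).symm v', ?_, H.isDistinguishedAt.monic, hPd, hPF, ?_, ?_⟩
  · apply IsUnit.map
    exact IsUnit.of_mul_eq_one u' (by rw [mul_comm]; exact hv')
  · intro j hj
    rw [PowerSeries.X_pow_dvd_iff]
    intro m hm
    have h1 : PowerSeries.coeff m (P.coeff j) = MvPowerSeries.coeff (fs m j) (incl K P) := by
      rw [← coeff_phi, phi_incl, Polynomial.coeff_coe]
    rw [h1, hPF, MvPowerSeries.coeff_mul]
    apply Finset.sum_eq_zero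
    intro p hp
    rw [Finset.HasAntidiagonal.mem_antidiagonal] at hp
    have h2 := congrArg (fun f : Fin 2 →₀ ℕ => f 0) hp
    have h3 := congrArg (fun f : Fin 2 →₀ ℕ => f 1) hp
    simp only [Finsupp.add_apply, fs_zero, fs_one] at h2 h3
    rw [hF.low p.2 (by omega), mul_zero]
  · intro g
    obtain ⟨q, r, hqr⟩ := PowerSeries.exists_isWeierstrassDivision (phi K g) hg
    refine ⟨(phi K).symm q, r, ?_⟩
    apply (phi K).injective
    rw [map_add, map_mul, RingEquiv.apply_symm_apply, phi_incl, hqr.eq_mul_add, mul_comm]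

end Pool.Agent.DU5.PC
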