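import Pool.Agent.Lib.MP_524519_ag.DU5.PC.Iface

/-!
# DU5, chapter PC, module DVP: divisibility by the derivative (helper19)
-/

set_option autoImplicit false

namespace Pool.Agent.DU5.PC.DVP

open Polynomial

variable {K : Type} [Field K]

/-- The inclusion of power series in Laurent series. -/
noncomputable abbrev emb (K : Type) [Field K] : PowerSeries K →+* LaurentSeries K :=
  algebraMap (PowerSeries K) (LaurentSeries K)

theorem emb_inj : Function.Injective (emb K) :=
  IsFractionRing.injective (PowerSeries K) (LaurentSeries K)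

theorem ex_coeff (n : ℕ) (hn : n ≠ 0) (a : PowerSeries K) (m : ℕ) :
    PowerSeries.coeff (n * m) (ex K n hn a) = PowerSeries.coeff m a :=
  PowerSeries.coeff_expand_mul n hn a m

theorem ex_X (n : ℕ) (hn : n ≠ 0) : ex K n hn PowerSeries.X = PowerSeries.X ^ n :=
  PowerSeries.expand_X n hn

theorem ex_inj (n : ℕ) (hn : n ≠ 0) : Function.Injective (ex K n hn) := by
  intro a b h
  ext m
  rw [← ex_coeff n hn a m, ← ex_coeff n hn b m, h]

theorem ex_dvd (n : ℕ) (hn : n ≠ 0) (a : PowerSeries K) (N : ℕ)
    (h : PowerSeries.X ^ (n * N + 1) ∣ ex K n hn a) : PowerSeries.X ^ (N + 1) ∣ a := by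
  rw [PowerSeries.X_pow_dvd_iff] at h ⊢
  intro m hm
  rw [← ex_coeff n hn a m]
  apply h
  have : n * m ≤ n * N := Nat.mul_le_mul_left n (by omega)
  omega

/-- The extension of `ex` to Laurent series. -/
noncomputable def phi (n : ℕ) (hn : n ≠ 0) : LaurentSeries K →+* LaurentSeries K :=
  IsFractionRing.lift (A := PowerSeries K) (g := (emb K).comp (ex K n hn))
    (emb_inj.comp (ex_inj n hn))

theorem phi_emb (n : ℕ) (hn : n ≠ 0) (a : PowerSeries K) :
    phi n hn (emb K a) = emb K (ex K n hn a) :=
  IsFractionRing.lift_algebraMap (A := PowerSeries K) (g := (emb K).comp (ex K n hn))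
    (emb_inj.comp (ex_inj n hn)) a

/-- Integrality: if `x^n φ(c) = s T` then `c` is a power series. -/
theorem integral (n : ℕ) (hn : n ≠ 0) (c : LaurentSeries K) (T : PowerSeries K)
    (h : emb K (PowerSeries.X ^ n) * phi n hn c = emb K (PowerSeries.X * T)) :
    c ∈ (emb K).range := by
  obtain ⟨⟨a, s⟩, hs⟩ := IsLocalization.surj (Submonoid.powers (PowerSeries.X : PowerSeries K)) c
  obtain ⟨s, N, rfl⟩ := s
  simp only at hs
  have h1 : phi n hn c * emb K (PowerSeries.X ^ (n * N)) = emb K (ex K n hn a) := by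
    rw [← phi_emb, ← hs, map_mul, phi_emb, map_pow (ex K n hn), ex_X, ← pow_mul]
  have h2 : PowerSeries.X ^ (n * N + 1) * T = ex K n hn (PowerSeries.X * a) := by
    apply emb_inj (K := K)
    rw [map_mul (ex K n hn), ex_X, map_mul (emb K) (PowerSeries.X ^ n), ← h1, ← mul_assoc, h,
      ← map_mul]
    congr 1
    ring
  have h3 : PowerSeries.X ^ (N + 1) ∣ PowerSeries.X * a := by
    apply ex_dvd n hn
    exact ⟨T, h2.symm⟩
  rw [pow_succ', mul_dvd_mul_iff_left PowerSeries.X_ne_zero] at h3
  obtain ⟨a', rfl⟩ := h3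
  refine ⟨a', ?_⟩
  have hX : emb K (PowerSeries.X ^ N) ≠ 0 := by
    rw [Ne, map_eq_zero_iff _ (emb_inj (K := K))]
    exact pow_ne_zero _ PowerSeries.X_ne_zero
  apply mul_right_cancel₀ hX
  change emb K a' * _ = c * emb K (PowerSeries.X ^ N)
  rw [hs, ← map_mul, mul_comm]

theorem eta_inj (P : (PowerSeries K)[X]) (d : ℕ) (n : ℕ) (hn : n ≠ 0)
    (η : Fin d → PowerSeries K) (hP : P.map (ex K n hn) = ∏ i, (X - C (η i)))
    (hd : ∀ i, pev n hn (η i) (derivative P) ≠ 0) : Function.Injective η := by
  intro i j hij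
  by_contra hne
  apply hd i
  unfold pev
  rw [← derivative_map, hP, ← Finset.mul_prod_erase Finset.univ _ (Finset.mem_univ i),
    ← Finset.mul_prod_erase (Finset.univ.erase i) _
      (Finset.mem_erase.2 ⟨Ne.symm hne, Finset.mem_univ j⟩), ← hij]
  simp [derivative_mul]

theorem main (h1 : EulStatement) (h2 : IntStatement) (P : (PowerSeries K)[X]) (d : ℕ) (hd0 : 0 < d)
    (hPm : P.Monic) (hPd : P.natDegree = d) (n : ℕ) (hn : n ≠ 0) (η : Fin d → PowerSeries K)
    (hP : P.map (ex K n hn) = ∏ i, (X - C (η i)))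
    (hder : ∀ i, pev n hn (η i) (derivative P) ≠ 0) (g : (PowerSeries K)[X]) (e : ℕ)
    (hg : ∀ i, PowerSeries.X * pev n hn (η i) (derivative P) ^ 2 * PowerSeries.X ^ (n * e) ∣
      PowerSeries.X ^ n * pev n hn (η i) g) :
    g ∈ Ideal.span {P, C (PowerSeries.X ^ e) * derivative P} := by
  have hinj : Function.Injective η := eta_inj P d n hn η hP hder
  set φ := phi (K := K) n hn with hφ
  set PL : (LaurentSeries K)[X] := P.map (emb K) with hPL
  set gL : (LaurentSeries K)[X] := g.map (emb K) with hgL
  set ηL : Fin d → LaurentSeries K := fun i => emb K (η i) with hηL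
  have hηLinj : Function.Injective ηL := emb_inj.comp hinj
  -- the composition of the maps
  have hcomp : φ.comp (emb K) = (emb K).comp (ex K n hn) := by
    ext1 a
    exact phi_emb n hn a
  have hmapmap : ∀ q : (PowerSeries K)[X], (q.map (emb K)).map φ = (q.map (ex K n hn)).map (emb K) := by
    intro q
    rw [Polynomial.map_map, Polynomial.map_map, hcomp]
  have hPLφ : PL.map φ = ∏ i, (X - C (ηL i)) := by
    rw [hPL, hmapmap, hP, Polynomial.map_prod]
    simp [hηL]
  have hPLm : PL.Monic := hPm.map _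
  have hPLd : PL.natDegree = d := by rw [hPL, hPm.natDegree_map, hPd]
  have hsep : PL.Separable := by
    rw [← Polynomial.separable_map φ, hPLφ]
    exact Polynomial.separable_prod_X_sub_C_iff.2 hηLinj
  obtain ⟨a, b, hab⟩ := hsep
  have hX : emb K (PowerSeries.X ^ e) ≠ 0 := by
    rw [Ne, map_eq_zero_iff _ (emb_inj (K := K))]
    exact pow_ne_zero _ PowerSeries.X_ne_zero
  set w : (LaurentSeries K)[X] := C (emb K (PowerSeries.X ^ e))⁻¹ * ((b * gL) %ₘ PL) with hw
  have hne1 : PL ≠ 1 := by
    intro h
    rw [h] at hPLd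
    simp at hPLd
    omega
  have hwd : w.natDegree < d := by
    refine lt_of_le_of_lt (natDegree_C_mul_le _ _) ?_
    rw [← hPLd]
    exact natDegree_modByMonic_lt _ hPLm hne1
  -- the congruence
  have hcong : PL ∣ gL - w * (C (emb K (PowerSeries.X ^ e)) * derivative PL) := by
    have e1 : w * (C (emb K (PowerSeries.X ^ e)) * derivative PL) =
        ((b * gL) %ₘ PL) * derivative PL := by
      rw [hw]
      have : C (emb K (PowerSeries.X ^ e))⁻¹ * C (emb K (PowerSeries.X ^ e)) =
          (1 : (LaurentSeries K)[X]) := by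
        rw [← C_mul, inv_mul_cancel₀ hX, C_1]
      linear_combination (((b * gL) %ₘ PL) * derivative PL) * this
    have e2 : (b * gL) %ₘ PL = b * gL - PL * ((b * gL) /ₘ PL) := by
      have := modByMonic_add_div (b * gL) PL
      linear_combination this
    rw [e1, e2]
    refine ⟨a * gL + ((b * gL) /ₘ PL) * derivative PL, ?_⟩
    linear_combination (-gL) * hab
  clear_value w
  have hcong' : (PL.map φ) ∣ (gL - w * (C (emb K (PowerSeries.X ^ e)) * derivative PL)).map φ :=
    Polynomial.map_dvd φ hcong
  -- values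
  have hval : ∀ q : (PowerSeries K)[X], ∀ i, ((q.map (emb K)).map φ).eval (ηL i) =
      emb K (pev n hn (η i) q) := by
    intro q i
    rw [hmapmap, hηL]
    simp only [pev]
    rw [Polynomial.eval_map, Polynomial.eval₂_hom]
  have hPLder : (derivative PL) = (derivative P).map (emb K) := by
    rw [hPL, derivative_map]
  have hderval : ∀ i, (derivative (PL.map φ)).eval (ηL i) =
      emb K (pev n hn (η i) (derivative P)) := by
    intro i
    rw [derivative_map, hPLder, hval]
  have hderne : ∀ i, emb K (pev n hn (η i) (derivative P)) ≠ 0 := by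
    intro i
    rw [Ne, map_eq_zero_iff _ (emb_inj (K := K))]
    exact hder i
  have hroot : ∀ i, (PL.map φ).eval (ηL i) = 0 := by
    intro i
    rw [hPLφ, eval_prod]
    exact Finset.prod_eq_zero (Finset.mem_univ i) (by simp)
  have hwval : ∀ i, emb K (pev n hn (η i) g) = (w.map φ).eval (ηL i) *
      (emb K (PowerSeries.X ^ (n * e)) * emb K (pev n hn (η i) (derivative P))) := by
    intro i
    obtain ⟨q, hq⟩ := hcong'
    have h3 := congrArg (Polynomial.eval (ηL i)) hq
    have h8 : (C (emb K (PowerSeries.X ^ e)) : (LaurentSeries K)[X]).map φ =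
        C (emb K (PowerSeries.X ^ (n * e))) := by
      rw [Polynomial.map_C, hφ, phi_emb, map_pow (ex K n hn), ex_X, ← pow_mul]
    rw [eval_mul, hroot i, zero_mul, Polynomial.map_sub, Polynomial.map_mul, Polynomial.map_mul,
      eval_sub, eval_mul, eval_mul, hgL, hval, hPLder, hval, h8, eval_C] at h3
    exact sub_eq_zero.1 h3
  choose t ht using hg
  -- integrality of the coefficients
  have hint : ∀ k < d, ((X ^ k * w) %ₘ PL).coeff (d - 1) ∈ (emb K).range := by
    intro k _
    apply integral n hn _ (∑ i, η i ^ k * t i)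
    rw [← Polynomial.coeff_map, Polynomial.map_modByMonic _ hPLm,
      h1 (LaurentSeries K) d ηL hηLinj (PL.map φ) hPLφ, Finset.mul_sum, Finset.mul_sum, map_sum]
    refine Finset.sum_congr rfl fun i _ => ?_
    rw [hderval, Polynomial.map_mul, Polynomial.map_pow, Polynomial.map_X, eval_mul, eval_pow,
      eval_X]
    have h4 := congrArg (emb K) (ht i)
    simp only [map_mul, map_pow] at h4
    have h5 := hwval i
    simp only [map_pow] at h5
    have hp := hderne i
    set p := emb K (pev n hn (η i) (derivative P)) with hpdef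
    set G := emb K (pev n hn (η i) g) with hG
    set W := (w.map φ).eval (ηL i) with hW
    set x := emb K PowerSeries.X with hx
    have hx0 : x ≠ 0 := by
      rw [hx, Ne, map_eq_zero_iff _ (emb_inj (K := K))]
      exact PowerSeries.X_ne_zero
    simp only [map_mul, map_pow]
    rw [← hx]
    have h6 : x ^ n * W = x * p * emb K (t i) := by
      have h7 : (x ^ (n * e) * p) * (x ^ n * W) = (x ^ (n * e) * p) * (x * p * emb K (t i)) := by
        linear_combination h4 - x ^ n * h5
      exact mul_left_cancel₀ (mul_ne_zero (pow_ne_zero _ hx0) hp) h7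
    field_simp
    linear_combination (ηL i) ^ k * h6
  obtain ⟨v, hvd, hv⟩ := h2 K P d hd0 hPm hPd w hwd hint
  have hv' : v.map (emb K) = w := hv
  have hdiv : P ∣ g - v * (C (PowerSeries.X ^ e) * derivative P) := by
    rw [← Polynomial.map_dvd_map (emb K) emb_inj hPm]
    rw [Polynomial.map_sub, Polynomial.map_mul, Polynomial.map_mul, hv', Polynomial.map_C,
      ← derivative_map]
    exact hcong
  obtain ⟨q, hq⟩ := hdiv
  rw [Ideal.mem_span_pair]
  exact ⟨q, v, by linear_combination -hq⟩

end Pool.Agent.DU5.PC.DVP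

namespace Pool.Agent.DU5.PC

open Polynomial

theorem dvp (h1 : EulStatement) (h2 : IntStatement) : DvpStatement := by
  intro K _ P d hd0 hPm hPd n hn η hP hder g
  refine ⟨fun hg => ?_, fun hg => ?_⟩
  · have := DVP.main h1 h2 P d hd0 hPm hPd n hn η hP hder g 0 (by simpa using hg)
    simpa using this
  · have := DVP.main h1 h2 P d hd0 hPm hPd n hn η hP hder g 1 (fun i => ?_)
    · simpa using this
    · rw [mul_one, mul_comm]
      exact mul_dvd_mul_left _ (hg i)

end Pool.Agent.DU5.PC
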